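import Mathlib

/-!
Closed forms for sums of Domb numbers.
-/

namespace Pool.Agent.Lib.MP_4af00a_nt

open Finset

/-- The Domb numbers. -/
def domb (n : ℕ) : ℕ :=
  ∑ k ∈ range (n + 1), n.choose k ^ 2 * (2 * k).choose k * (2 * (n - k)).choose (n - k)

/-- central binomial, as a rational -/
noncomputable def cb (n : ℕ) : ℚ := (Nat.centralBinom n : ℚ)

lemma cb_succ (n : ℕ) : ((n : ℚ) + 1) * cb (n + 1) = 2 * (2 * n + 1) * cb n := by
  have h := Nat.succ_mul_centralBinom_succ n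
  unfold cb
  exact_mod_cast h

lemma cb_ne (n : ℕ) : cb n ≠ 0 := by
  unfold cb
  exact_mod_cast (Nat.centralBinom_pos n).ne'

lemma cb_zero : cb 0 = 1 := by simp [cb]

lemma ch_succ_left (r k : ℕ) :
    ((r : ℚ) + 1 - k) * ((r + 1).choose k : ℚ) = (r + 1) * (r.choose k : ℚ) := by
  rcases le_or_gt k (r + 1) with h | h
  · have h1 := Nat.choose_mul_succ_eq r k
    have h2 : (((r + 1 - k : ℕ)) : ℚ) = (r : ℚ) + 1 - k := by
      push_cast [Nat.cast_sub h]; ring
    rw [← h2]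
    have : ((r.choose k * (r + 1) : ℕ) : ℚ) = (((r + 1).choose k * (r + 1 - k) : ℕ) : ℚ) := by
      exact_mod_cast h1
    push_cast at this
    linarith
  · rw [Nat.choose_eq_zero_of_lt h, Nat.choose_eq_zero_of_lt (by omega)]
    simp

lemma ch_succ_right (r k : ℕ) :
    ((k : ℚ) + 1) * (r.choose (k + 1) : ℚ) = (r - k) * (r.choose k : ℚ) := by
  rcases le_or_gt k r with h | h
  · have h1 := Nat.choose_succ_right_eq r k
    have h2 : (((r - k : ℕ)) : ℚ) = (r : ℚ) - k := by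
      push_cast [Nat.cast_sub h]; ring
    rw [← h2]
    have : ((r.choose (k + 1) * (k + 1) : ℕ) : ℚ) = ((r.choose k * (r - k) : ℕ) : ℚ) := by
      exact_mod_cast h1
    push_cast at this
    linarith
  · rw [Nat.choose_eq_zero_of_lt h, Nat.choose_eq_zero_of_lt (by omega)]
    simp

/-! ### The Domb summand -/

/-- Domb summand -/
noncomputable def F (n k : ℕ) : ℚ := (n.choose k : ℚ) ^ 2 * cb k * cb (n - k)

lemma domb_eq (n : ℕ) : (domb n : ℚ) = ∑ k ∈ range (n + 1), F n k := by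
  unfold domb F cb
  push_cast [Nat.centralBinom]
  rfl

lemma F_zero {n k : ℕ} (h : n < k) : F n k = 0 := by
  unfold F
  rw [Nat.choose_eq_zero_of_lt h]
  simp

/-- upward relation -/
lemma F_up (n k : ℕ) :
    2 * ((n : ℚ) + 1) ^ 2 * (2 * (n - k) + 1) * F n k = (n + 1 - k) ^ 3 * F (n + 1) k := by
  rcases le_or_gt k n with h | h
  · obtain ⟨r, rfl⟩ := Nat.exists_eq_add_of_le h
    have e1 : k + r - k = r := by omega
    have e2 : k + r + 1 - k = r + 1 := by omega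
    unfold F
    rw [e1, e2]
    have h1 := cb_succ r
    have h2 := ch_succ_left (k + r) k
    push_cast at h2 ⊢
    have h2' : ((r : ℚ) + 1) * ((k + r + 1).choose k : ℚ)
        = ((k : ℚ) + r + 1) * ((k + r).choose k : ℚ) := by
      rw [← h2]; ring
    have : ((k : ℚ) + r + 1 - k) ^ 3 * (((k + r + 1).choose k : ℚ) ^ 2 * cb k * cb (r + 1))
        = (((r : ℚ) + 1) * ((k + r + 1).choose k : ℚ)) ^ 2 * cb k * ((r + 1) * cb (r + 1)) := by
      ring
    rw [this, h1, h2']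
    ring
  · rw [F_zero h]
    rcases Nat.lt_or_ge (n + 1) k with h' | h'
    · rw [F_zero h']; simp
    · have : k = n + 1 := by omega
      subst this
      push_cast
      ring

lemma F_right (n k : ℕ) (hk : k < n) :
    ((k : ℚ) + 1) ^ 3 * (2 * (n - k) - 1) * F n (k + 1) = (n - k) ^ 3 * (2 * k + 1) * F n k := by
  obtain ⟨r, rfl⟩ := Nat.exists_eq_add_of_lt hk
  have e1 : k + r + 1 - k = r + 1 := by omega
  have e2 : k + r + 1 - (k + 1) = r := by omega
  unfold F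
  rw [e1, e2]
  have h1 := cb_succ r
  have h2 := cb_succ k
  have h3 := ch_succ_right (k + r + 1) k
  push_cast at h3 ⊢
  have h3' : ((k : ℚ) + 1) * ((k + r + 1).choose (k + 1) : ℚ)
        = ((r : ℚ) + 1) * ((k + r + 1).choose k : ℚ) := by
      rw [h3]; ring
  have a1 : ((k : ℚ) + 1) ^ 3 * (2 * (k + r + 1 - k) - 1) *
      (((k + r + 1).choose (k + 1) : ℚ) ^ 2 * cb (k + 1) * cb r)
      = (((k : ℚ) + 1) * ((k + r + 1).choose (k + 1) : ℚ)) ^ 2 * (((k : ℚ) + 1) * cb (k + 1))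
        * ((2 * r + 1) * cb r) := by ring
  have a2 : ((k : ℚ) + r + 1 - k) ^ 3 * (2 * k + 1) *
      (((k + r + 1).choose k : ℚ) ^ 2 * cb k * cb (r + 1))
      = (((r : ℚ) + 1) * ((k + r + 1).choose k : ℚ)) ^ 2 * ((2 * k + 1) * cb k)
        * ((r + 1) * cb (r + 1)) := by ring
  rw [a1, a2, h1, h2, h3']
  ring

/-- certificate function for `F` -/
noncomputable def GF (n k : ℕ) : ℚ :=
  (k : ℚ) ^ 3 * (-(224 + 416 * n + 248 * n ^ 2 + 48 * n ^ 3) + (296 + 356 * n + 104 * n ^ 2) * k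
    - (120 + 72 * n) * k ^ 2 + 16 * k ^ 3) * F (n + 2) k / (4 * (n + 2) ^ 2 * (2 * (n - k) + 3))

lemma odd_ne {a : ℤ} : (2 * (a : ℚ) + 1) ≠ 0 := by
  have : (2 * a + 1 : ℤ) ≠ 0 := by omega
  exact_mod_cast this

lemma F_cert (n k : ℕ) (hk : k < n + 2) :
    ((n : ℚ) + 2) ^ 3 * F (n + 2) k - 2 * (2 * n + 3) * (5 * n ^ 2 + 15 * n + 12) * F (n + 1) k
      + 64 * (n + 1) ^ 3 * F n k = GF n (k + 1) - GF n k := by
  have h1 := F_up n k
  have h2 := F_up (n + 1) k
  have h3 := F_right (n + 2) k hk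
  unfold GF
  push_cast at h1 h2 h3 ⊢
  have n1 : (2 * ((n : ℚ) - k) + 1) ≠ 0 := by
    have := @odd_ne ((n : ℤ) - k); push_cast at this; exact this
  have n2 : (2 * ((n : ℚ) - k) + 3) ≠ 0 := by
    have := @odd_ne ((n : ℤ) - k + 1); push_cast at this; convert this using 1; ring
  have n3 : (2 * ((n : ℚ) - (k + 1)) + 3) ≠ 0 := by
    have := @odd_ne ((n : ℤ) - k); push_cast at this; convert this using 1; ring
  have n4 : ((n : ℚ) + 1) ≠ 0 := by positivity
  have n5 : ((n : ℚ) + 2) ≠ 0 := by positivity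
  have n6 : ((k : ℚ) + 1) ≠ 0 := by positivity
  have e1 : F (n + 1) k = (n + 2 - k) ^ 3 * F (n + 2) k / (2 * (n + 2) ^ 2 * (2 * (n - k) + 3)) := by
    rw [eq_div_iff (by positivity)]
    · have : ((n : ℚ) + 1 + 1 - k) ^ 3 * F (n + 1 + 1) k = (n + 2 - k) ^ 3 * F (n + 2) k := by ring_nf
      rw [← this, ← h2]; ring
  have e2 : F n k = (n + 1 - k) ^ 3 * F (n + 1) k / (2 * (n + 1) ^ 2 * (2 * (n - k) + 1)) := by
    rw [eq_div_iff (by positivity)]
    rw [← h1]; ring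
  have e3 : F (n + 2) (k + 1) = (n + 2 - k) ^ 3 * (2 * k + 1) * F (n + 2) k
      / ((k + 1) ^ 3 * (2 * (n - k) + 3)) := by
    rw [eq_div_iff (by positivity)]
    rw [← h3]; ring
  rw [e2, e1, e3]
  field_simp
  ring

lemma domb_rec (n : ℕ) :
    ((n : ℚ) + 2) ^ 3 * (domb (n + 2) : ℚ)
      - 2 * (2 * n + 3) * (5 * n ^ 2 + 15 * n + 12) * (domb (n + 1) : ℚ)
      + 64 * (n + 1) ^ 3 * (domb n : ℚ) = 0 := by
  have h0 : (domb n : ℚ) = ∑ k ∈ range (n + 2), F n k := by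
    rw [domb_eq, sum_range_succ _ (n + 1), F_zero (by omega : n < n + 1), add_zero]
  have h1 : (domb (n + 1) : ℚ) = ∑ k ∈ range (n + 2), F (n + 1) k := domb_eq (n + 1)
  have h2 : (domb (n + 2) : ℚ) = ∑ k ∈ range (n + 2), F (n + 2) k + F (n + 2) (n + 2) := by
    rw [domb_eq, sum_range_succ]
  rw [h0, h1, h2]
  have key : ∑ k ∈ range (n + 2), (((n : ℚ) + 2) ^ 3 * F (n + 2) k
      - 2 * (2 * n + 3) * (5 * n ^ 2 + 15 * n + 12) * F (n + 1) k
      + 64 * (n + 1) ^ 3 * F n k) = GF n (n + 2) - GF n 0 := by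
    rw [← sum_range_sub]
    apply sum_congr rfl
    intro k hk
    exact F_cert n k (mem_range.mp hk)
  rw [sum_add_distrib, sum_sub_distrib, ← mul_sum, ← mul_sum, ← mul_sum] at key
  have hG0 : GF n 0 = 0 := by unfold GF; simp
  have hG : GF n (n + 2) = -(((n : ℚ) + 2) ^ 3 * F (n + 2) (n + 2)) := by
    unfold GF
    push_cast
    have n5 : ((n : ℚ) + 2) ≠ 0 := by positivity
    have : (2 * ((n : ℚ) - (n + 2)) + 3) = -1 := by ring
    rw [this]
    field_simp
    ring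
  rw [hG0, hG] at key
  linear_combination key

/-! ### The alternating summand -/

/-- alternating summand -/
noncomputable def Sg (n k : ℕ) : ℚ := (-1) ^ k * ((n - k).choose k : ℚ) * cb k * cb (n - k) ^ 2

lemma Sg_zero {n k : ℕ} (h : n < 2 * k) : Sg n k = 0 := by
  unfold Sg
  rw [Nat.choose_eq_zero_of_lt (by omega)]
  simp

lemma Sg_up (n k : ℕ) :
    4 * (2 * ((n : ℚ) - k) + 1) ^ 2 * Sg n k = (n + 1 - 2 * k) * (n + 1 - k) * Sg (n + 1) k := by
  rcases le_or_gt k n with h | h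
  · obtain ⟨r, rfl⟩ := Nat.exists_eq_add_of_le h
    have e1 : k + r - k = r := by omega
    have e2 : k + r + 1 - k = r + 1 := by omega
    unfold Sg
    rw [e1, e2]
    have h1 := cb_succ r
    have h2 := ch_succ_left r k
    push_cast at h2 ⊢
    have a1 : ((k : ℚ) + r + 1 - 2 * k) * (k + r + 1 - k) *
        ((-1) ^ k * ((r + 1).choose k : ℚ) * cb k * cb (r + 1) ^ 2)
        = (-1) ^ k * (((r : ℚ) + 1 - k) * ((r + 1).choose k : ℚ)) * cb k * ((r + 1) * cb (r + 1))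
          * cb (r + 1) := by ring
    rw [a1, h2]
    have a2 : (-1 : ℚ) ^ k * (((r : ℚ) + 1) * (r.choose k : ℚ)) * cb k * ((r + 1) * cb (r + 1))
          * cb (r + 1) = (-1) ^ k * (r.choose k : ℚ) * cb k * ((r + 1) * cb (r + 1)) ^ 2 := by
      ring
    rw [a2, h1]
    ring
  · rcases Nat.lt_or_ge (n + 1) k with h' | h'
    · rw [Sg_zero (by omega), Sg_zero (by omega)]; simp
    · have : k = n + 1 := by omega
      subst this
      rw [Sg_zero (by omega)]
      push_cast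
      ring

lemma Sg_right (n k : ℕ) :
    2 * ((k : ℚ) + 1) ^ 2 * (2 * (n - k) - 1) ^ 2 * Sg n (k + 1)
      = -((n - 2 * k) * (n - 2 * k - 1) * (2 * k + 1) * (n - k)) * Sg n k := by
  rcases Nat.lt_or_ge k n with h | h
  · obtain ⟨r, rfl⟩ := Nat.exists_eq_add_of_lt h
    have e1 : k + r + 1 - k = r + 1 := by omega
    have e2 : k + r + 1 - (k + 1) = r := by omega
    unfold Sg
    rw [e1, e2]
    have h1 := cb_succ r
    have h2 := cb_succ k
    have h3 := ch_succ_right r k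
    have h4 := ch_succ_left r k
    push_cast at h3 ⊢
    have a1 : 2 * ((k : ℚ) + 1) ^ 2 * (2 * (k + r + 1 - k) - 1) ^ 2 *
      ((-1) ^ (k + 1) * (r.choose (k + 1) : ℚ) * cb (k + 1) * cb r ^ 2)
      = -2 * (-1) ^ k * (((k : ℚ) + 1) * (r.choose (k + 1) : ℚ)) * (((k : ℚ) + 1) * cb (k + 1))
        * ((2 * r + 1) * cb r) ^ 2 := by ring
    have a2 : -(((k : ℚ) + r + 1 - 2 * k) * (k + r + 1 - 2 * k - 1) * (2 * k + 1) * (k + r + 1 - k)) *
      ((-1) ^ k * ((r + 1).choose k : ℚ) * cb k * cb (r + 1) ^ 2)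
      = -(-1) ^ k * (((r : ℚ) + 1 - k) * ((r + 1).choose k : ℚ)) * (r - k)
        * ((2 * k + 1) * cb k)
        * ((r + 1) * cb (r + 1) ^ 2) := by ring
    rw [a1, a2, h2, h3, h4]
    have a3 : -(-1 : ℚ) ^ k * (((r : ℚ) + 1) * (r.choose k : ℚ)) * (r - k)
        * ((2 * k + 1) * cb k) * ((r + 1) * cb (r + 1) ^ 2)
        = -(-1 : ℚ) ^ k * (r.choose k : ℚ) * (r - k)
        * ((2 * k + 1) * cb k) * ((r + 1) * cb (r + 1)) ^ 2 := by ring
    rw [a3, h1]
    ring
  · rcases Nat.lt_or_ge n k with h' | h'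
    · rw [Sg_zero (by omega), Sg_zero (by omega)]; simp
    · have : k = n := by omega
      subst this
      rcases Nat.eq_zero_or_pos k with h0 | h0
      · subst h0
        rw [Sg_zero (by omega)]; simp
      · rw [Sg_zero (by omega)]; simp

/-- certificate function for `Sg` -/
noncomputable def GS (n k : ℕ) : ℚ :=
  (k : ℚ) ^ 2 * (-(608 + 1264 * n + 864 * n ^ 2 + 192 * n ^ 3) + (672 + 928 * n + 320 * n ^ 2) * k
    - (192 + 128 * n) * k ^ 2) * Sg (n + 2) k / (16 * (2 * (n - k) + 3) ^ 2)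

lemma Sg_cert (n k : ℕ) :
    ((n : ℚ) + 2) ^ 3 * Sg (n + 2) k - 2 * (2 * n + 3) * (5 * n ^ 2 + 15 * n + 12) * Sg (n + 1) k
      + 64 * (n + 1) ^ 3 * Sg n k = GS n (k + 1) - GS n k := by
  have h1 := Sg_up n k
  have h2 := Sg_up (n + 1) k
  have h3 := Sg_right (n + 2) k
  unfold GS
  push_cast at h1 h2 h3 ⊢
  have n1 : (2 * ((n : ℚ) - k) + 1) ≠ 0 := by
    have := @odd_ne ((n : ℤ) - k); push_cast at this; exact this
  have n2 : (2 * ((n : ℚ) - k) + 3) ≠ 0 := by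
    have := @odd_ne ((n : ℤ) - k + 1); push_cast at this; convert this using 1; ring
  have n3 : (2 * ((n : ℚ) - (k + 1)) + 3) ≠ 0 := by
    have := @odd_ne ((n : ℤ) - k); push_cast at this; convert this using 1; ring
  have n6 : ((k : ℚ) + 1) ≠ 0 := by positivity
  have e1 : Sg (n + 1) k = (n + 2 - 2 * k) * (n + 2 - k) * Sg (n + 2) k
      / (4 * (2 * (n - k) + 3) ^ 2) := by
    rw [eq_div_iff (by positivity)]
    have : ((n : ℚ) + 1 + 1 - 2 * k) * (n + 1 + 1 - k) * Sg (n + 1 + 1) k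
        = (n + 2 - 2 * k) * (n + 2 - k) * Sg (n + 2) k := by ring_nf
    rw [← this, ← h2]; ring
  have e2 : Sg n k = (n + 1 - 2 * k) * (n + 1 - k) * Sg (n + 1) k
      / (4 * (2 * (n - k) + 1) ^ 2) := by
    rw [eq_div_iff (by positivity)]
    rw [← h1]; ring
  have e3 : Sg (n + 2) (k + 1) = -((n + 2 - 2 * k) * (n + 1 - 2 * k) * (2 * k + 1) * (n + 2 - k))
      * Sg (n + 2) k / (2 * (k + 1) ^ 2 * (2 * (n - k) + 3) ^ 2) := by
    rw [eq_div_iff (by positivity)]
    have : -(((n : ℚ) + 2 - 2 * k) * (n + 2 - 2 * k - 1) * (2 * k + 1) * (n + 2 - k)) * Sg (n + 2) k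
      = -((n + 2 - 2 * k) * (n + 1 - 2 * k) * (2 * k + 1) * (n + 2 - k)) * Sg (n + 2) k := by ring
    rw [← this, ← h3]; ring
  rw [e2, e1, e3]
  field_simp
  ring

/-- alternating sum -/
noncomputable def T2 (n : ℕ) : ℚ := ∑ k ∈ range (n + 1), Sg n k

lemma T2_ext {n N : ℕ} (h : n < N) : ∑ k ∈ range N, Sg n k = T2 n := by
  unfold T2
  obtain ⟨r, rfl⟩ := Nat.exists_eq_add_of_lt h
  rw [show n + r + 1 = (n + 1) + r by ring, sum_range_add]
  rw [add_eq_left]
  apply sum_eq_zero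
  intro i _
  exact Sg_zero (by omega)

lemma T2_rec (n : ℕ) :
    ((n : ℚ) + 2) ^ 3 * T2 (n + 2)
      - 2 * (2 * n + 3) * (5 * n ^ 2 + 15 * n + 12) * T2 (n + 1)
      + 64 * (n + 1) ^ 3 * T2 n = 0 := by
  rw [← T2_ext (by omega : n < n + 3), ← T2_ext (by omega : n + 1 < n + 3),
    ← T2_ext (by omega : n + 2 < n + 3)]
  rw [mul_sum, mul_sum, mul_sum, ← sum_sub_distrib, ← sum_add_distrib]
  rw [sum_congr rfl (fun k _ => Sg_cert n k), sum_range_sub]
  unfold GS
  rw [Sg_zero (by omega : n + 2 < 2 * (n + 3))]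
  simp

lemma domb_eq_T2 (n : ℕ) : (domb n : ℚ) = T2 n := by
  induction n using Nat.twoStepInduction with
  | zero => simp [domb, T2, Sg, cb_zero]
  | one =>
    have h1 : cb 1 = 2 := by simp [cb, Nat.centralBinom]
    rw [T2, sum_range_succ, sum_range_succ, sum_range_zero, Sg_zero (by norm_num : 1 < 2 * 1)]
    simp only [Sg, domb]
    norm_num [sum_range_succ, h1, cb_zero, Nat.choose]
  | more n h0 h1 =>
    have a := domb_rec n
    have b := T2_rec n
    rw [h0, h1] at a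
    have hn : ((n : ℚ) + 2) ^ 3 ≠ 0 := by positivity
    apply mul_left_cancel₀ hn
    linarith

/-! ### The weighted partial sums -/

/-- `A n = ∑_{i<n} (3 i^2+i) 16^(n-1-i) domb i`. -/
def A (m : ℕ) : ℚ := ∑ n ∈ range m, (3 * (n : ℚ) ^ 2 + n) * 16 ^ (m - 1 - n) * domb n

lemma A_succ (m : ℕ) : A (m + 1) = 16 * A m + (3 * (m : ℚ) ^ 2 + m) * domb m := by
  unfold A
  rw [sum_range_succ, mul_sum]
  congr 1
  · apply sum_congr rfl
    intro n hn
    have hn' := mem_range.mp hn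
    have : m + 1 - 1 - n = (m - 1 - n) + 1 := by omega
    rw [this, pow_succ]
    ring
  · simp

/-- summand of the closed form with Catalan numbers -/
noncomputable def Ut (n k : ℕ) : ℚ := (n - 2 * k) / (k + 1) * Sg n k

/-- closed form with Catalan numbers -/
noncomputable def U (n : ℕ) : ℚ := ∑ k ∈ range (n + 1), Ut n k

lemma Ut_zero {n k : ℕ} (h : n < 2 * k) : Ut n k = 0 := by
  unfold Ut
  rw [Sg_zero h]; simp

lemma U_ext {n N : ℕ} (h : n < N) : ∑ k ∈ range N, Ut n k = U n := by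
  unfold U
  obtain ⟨r, rfl⟩ := Nat.exists_eq_add_of_lt h
  rw [show n + r + 1 = (n + 1) + r by ring, sum_range_add]
  rw [add_eq_left]
  apply sum_eq_zero
  intro i _
  exact Ut_zero (by omega)

/-- certificate function for `U` -/
noncomputable def GU (n k : ℕ) : ℚ := (k : ℚ) * (8 * n + 10 - 4 * k) * Sg (n + 1) k

lemma Ut_cert (n k : ℕ) :
    ((n : ℚ) + 2) ^ 2 * Ut (n + 1) k - 16 * (n + 1) ^ 2 * Ut n k
      - (n + 1) * (3 * n + 4) * Sg (n + 1) k = GU n (k + 1) - GU n k := by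
  have h1 := Sg_up n k
  have h3 := Sg_right (n + 1) k
  unfold GU Ut
  push_cast at h1 h3 ⊢
  have n1 : (2 * ((n : ℚ) - k) + 1) ≠ 0 := by
    have := @odd_ne ((n : ℤ) - k); push_cast at this; exact this
  have n6 : ((k : ℚ) + 1) ≠ 0 := by positivity
  have e2 : Sg n k = (n + 1 - 2 * k) * (n + 1 - k) * Sg (n + 1) k
      / (4 * (2 * (n - k) + 1) ^ 2) := by
    rw [eq_div_iff (by positivity)]
    rw [← h1]; ring
  have e3 : Sg (n + 1) (k + 1) = -((n + 1 - 2 * k) * (n - 2 * k) * (2 * k + 1) * (n + 1 - k))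
      * Sg (n + 1) k / (2 * (k + 1) ^ 2 * (2 * (n - k) + 1) ^ 2) := by
    rw [eq_div_iff (by positivity)]
    have : -(((n : ℚ) + 1 - 2 * k) * (n + 1 - 2 * k - 1) * (2 * k + 1) * (n + 1 - k)) * Sg (n + 1) k
      = -((n + 1 - 2 * k) * (n - 2 * k) * (2 * k + 1) * (n + 1 - k)) * Sg (n + 1) k := by ring
    rw [← this, ← h3]; ring
  rw [e2, e3]
  field_simp
  ring

lemma U_rec (n : ℕ) :
    ((n : ℚ) + 2) ^ 2 * U (n + 1) = 16 * (n + 1) ^ 2 * U n
      + (n + 1) * (3 * n + 4) * (domb (n + 1) : ℚ) := by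
  have key : ∑ k ∈ range (n + 3), (((n : ℚ) + 2) ^ 2 * Ut (n + 1) k - 16 * (n + 1) ^ 2 * Ut n k
      - (n + 1) * (3 * n + 4) * Sg (n + 1) k) = GU n (n + 3) - GU n 0 := by
    rw [sum_congr rfl (fun k _ => Ut_cert n k), sum_range_sub]
  rw [sum_sub_distrib, sum_sub_distrib, ← mul_sum, ← mul_sum, ← mul_sum,
    U_ext (by omega : n < n + 3), U_ext (by omega : n + 1 < n + 3), T2_ext (by omega : n + 1 < n + 3),
    ← domb_eq_T2] at key
  unfold GU at key
  rw [Sg_zero (by omega : n + 1 < 2 * (n + 3))] at key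
  simp at key
  linarith

theorem A_eq_U (n : ℕ) : A (n + 1) = ((n : ℚ) + 1) ^ 2 * U n := by
  induction n with
  | zero =>
    simp [A, U, Ut]
  | succ n ih =>
    rw [A_succ, ih]
    have := U_rec n
    push_cast
    linear_combination -this

/-- summand of the second closed form -/
noncomputable def Tt (n k : ℕ) : ℚ := (n - k) / (2 * (2 * (n - k) - 1)) * Sg n k

/-- second closed form -/
noncomputable def T (n : ℕ) : ℚ := ∑ k ∈ range (n + 1), Tt n k

lemma Tt_zero {n k : ℕ} (h : n < 2 * k) : Tt n k = 0 := by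
  unfold Tt
  rw [Sg_zero h]; simp

lemma T_ext {n N : ℕ} (h : n < N) : ∑ k ∈ range N, Tt n k = T n := by
  unfold T
  obtain ⟨r, rfl⟩ := Nat.exists_eq_add_of_lt h
  rw [show n + r + 1 = (n + 1) + r by ring, sum_range_add]
  rw [add_eq_left]
  apply sum_eq_zero
  intro i _
  exact Tt_zero (by omega)

/-- certificate function for `T` -/
noncomputable def GT (n k : ℕ) : ℚ :=
  -2 * (k : ℚ) ^ 2 * (n + 1 - k) * Sg (n + 1) k / (2 * (n - k) + 1)

lemma Tt_cert (n k : ℕ) :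
    ((n : ℚ) + 1) ^ 2 * Tt (n + 1) k - 16 * n * (n - 1) * Tt n k
      - 2 * (3 * n + 1) * Sg n k = GT n (k + 1) - GT n k := by
  have h1 := Sg_up n k
  have h3 := Sg_right (n + 1) k
  unfold GT Tt
  push_cast at h1 h3 ⊢
  have n1 : (2 * ((n : ℚ) - k) + 1) ≠ 0 := by
    have := @odd_ne ((n : ℤ) - k); push_cast at this; exact this
  have n2 : (2 * ((n : ℚ) - k) - 1) ≠ 0 := by
    have := @odd_ne ((n : ℤ) - k - 1); push_cast at this; convert this using 1; ring
  have n3 : (2 * ((n : ℚ) - (k + 1)) + 1) = 2 * ((n : ℚ) - k) - 1 := by ring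
  have n4 : (2 * ((n : ℚ) + 1 - k) - 1) = 2 * ((n : ℚ) - k) + 1 := by ring
  have n6 : ((k : ℚ) + 1) ≠ 0 := by positivity
  have e2 : Sg n k = (n + 1 - 2 * k) * (n + 1 - k) * Sg (n + 1) k
      / (4 * (2 * (n - k) + 1) ^ 2) := by
    rw [eq_div_iff (by positivity)]
    rw [← h1]; ring
  have e3 : Sg (n + 1) (k + 1) = -((n + 1 - 2 * k) * (n - 2 * k) * (2 * k + 1) * (n + 1 - k))
      * Sg (n + 1) k / (2 * (k + 1) ^ 2 * (2 * (n - k) + 1) ^ 2) := by
    rw [eq_div_iff (by positivity)]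
    have : -(((n : ℚ) + 1 - 2 * k) * (n + 1 - 2 * k - 1) * (2 * k + 1) * (n + 1 - k)) * Sg (n + 1) k
      = -((n + 1 - 2 * k) * (n - 2 * k) * (2 * k + 1) * (n + 1 - k)) * Sg (n + 1) k := by ring
    rw [← this, ← h3]; ring
  rw [e2, e3, n3, n4]
  field_simp
  ring

lemma T_rec (n : ℕ) :
    ((n : ℚ) + 1) ^ 2 * T (n + 1) = 16 * n * (n - 1) * T n
      + 2 * (3 * n + 1) * (domb n : ℚ) := by
  have key : ∑ k ∈ range (n + 3), (((n : ℚ) + 1) ^ 2 * Tt (n + 1) k - 16 * n * (n - 1) * Tt n k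
      - 2 * (3 * n + 1) * Sg n k) = GT n (n + 3) - GT n 0 := by
    rw [sum_congr rfl (fun k _ => Tt_cert n k), sum_range_sub]
  rw [sum_sub_distrib, sum_sub_distrib, ← mul_sum, ← mul_sum, ← mul_sum,
    T_ext (by omega : n < n + 3), T_ext (by omega : n + 1 < n + 3), T2_ext (by omega : n < n + 3),
    ← domb_eq_T2] at key
  unfold GT at key
  rw [Sg_zero (by omega : n + 1 < 2 * (n + 3))] at key
  simp at key
  linarith

theorem A_eq_T (m : ℕ) : 2 * A m = (m : ℚ) ^ 2 * (m - 1) * T m := by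
  induction m with
  | zero => simp [A]
  | succ n ih =>
    rw [A_succ, mul_add]
    have : (2 : ℚ) * (16 * A n) = 16 * (2 * A n) := by ring
    rw [this, ih]
    have := T_rec n
    push_cast
    linear_combination -(n : ℚ) * this

end Pool.Agent.Lib.MP_4af00a_nt
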