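import Mathlib

/-!
Elementary p-adic expansions in `ℚ`.
-/

namespace Pool.Agent.Lib.MP_4af00a_nt

open Finset

set_option linter.unusedSectionVars false

variable (p : ℕ) [hp : Fact p.Prime]

/-- `x` is divisible by `p^j` in the localisation. -/
structure D (j : ℕ) (x : ℚ) : Prop where
  /-- the norm bound -/
  le : padicNorm p x ≤ (p : ℚ) ^ (-(j : ℤ))

variable {p}

lemma p_pos : (0 : ℚ) < p := by exact_mod_cast hp.out.pos

lemma one_le_p : (1 : ℚ) ≤ p := by exact_mod_cast hp.out.one_lt.le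

lemma D_zero (j : ℕ) : D p j 0 := by
  constructor
  simp only [padicNorm.zero]
  exact (zpow_pos p_pos _).le

lemma D_add {j : ℕ} {x y : ℚ} (hx : D p j x) (hy : D p j y) : D p j (x + y) := by
  exact ⟨padicNorm.nonarchimedean.trans (max_le hx.le hy.le)⟩

lemma D_neg {j : ℕ} {x : ℚ} (hx : D p j x) : D p j (-x) := by
  constructor
  rw [padicNorm.neg]
  exact hx.le

lemma D_sub {j : ℕ} {x y : ℚ} (hx : D p j x) (hy : D p j y) : D p j (x - y) := by
  rw [sub_eq_add_neg]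
  exact D_add hx (D_neg hy)

lemma D_mul {i j : ℕ} {x y : ℚ} (hx : D p i x) (hy : D p j y) : D p (i + j) (x * y) := by
  constructor
  rw [padicNorm.mul]
  have : (p : ℚ) ^ (-((i + j : ℕ) : ℤ)) = (p : ℚ) ^ (-(i : ℤ)) * (p : ℚ) ^ (-(j : ℤ)) := by
    rw [← zpow_add₀ p_pos.ne']
    congr 1
    push_cast; ring
  rw [this]
  exact mul_le_mul hx.le hy.le (padicNorm.nonneg _) (zpow_pos p_pos _).le

lemma D_mono {i j : ℕ} (h : i ≤ j) {x : ℚ} (hx : D p j x) : D p i x := by
  constructor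
  refine hx.le.trans ?_
  apply zpow_le_zpow_right₀ one_le_p
  have : (i : ℤ) ≤ j := by exact_mod_cast h
  omega

lemma D_sum {ι : Type*} {j : ℕ} (s : Finset ι) (f : ι → ℚ) (h : ∀ i ∈ s, D p j (f i)) :
    D p j (∑ i ∈ s, f i) := by
  classical
  induction s using Finset.induction_on with
  | empty => simpa using D_zero j
  | insert a s ha ih =>
    rw [sum_insert ha]
    exact D_add (h a (mem_insert_self _ _)) (ih (fun i hi => h i (mem_insert_of_mem hi)))

lemma D_int (z : ℤ) : D p 0 (z : ℚ) := by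
  constructor
  simpa using padicNorm.of_int z

lemma D_nat (n : ℕ) : D p 0 (n : ℚ) := by
  have := D_int (p := p) (n : ℤ)
  simpa using this

lemma D_one : D p 0 (1 : ℚ) := by simpa using D_nat (p := p) 1

lemma D_p : D p 1 (p : ℚ) := by
  constructor
  rw [padicNorm.padicNorm_p hp.out.one_lt]
  simp

lemma D_p_pow (j : ℕ) : D p j ((p : ℚ) ^ j) := by
  induction j with
  | zero => simpa using D_one
  | succ j ih => rw [pow_succ]; exact D_mul ih D_p

lemma D_inv {k : ℕ} (h : ¬ p ∣ k) : D p 0 ((k : ℚ)⁻¹) := by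
  constructor
  have h1 : padicNorm p (k : ℚ) = 1 := (padicNorm.nat_eq_one_iff k).mpr h
  have hk : (k : ℚ) ≠ 0 := by
    intro h0
    rw [h0] at h1
    simp at h1
  have h2 : padicNorm p ((k : ℚ)⁻¹) * padicNorm p (k : ℚ) = 1 := by
    rw [← padicNorm.mul, inv_mul_cancel₀ hk]; simp
  rw [h1, mul_one] at h2
  rw [h2]; simp

lemma not_dvd_of_lt {k : ℕ} (h0 : 0 < k) (h : k < p) : ¬ p ∣ k :=
  fun hd => absurd (Nat.le_of_dvd h0 hd) (by omega)

lemma D_inv_lt {k : ℕ} (h0 : 0 < k) (h : k < p) : D p 0 ((k : ℚ)⁻¹) :=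
  D_inv (not_dvd_of_lt h0 h)

/-- dividing out a power of `p` -/
lemma D_of_mul_p {j : ℕ} {x : ℚ} (h' : D p (j + 1) ((p : ℚ) * x)) : D p j x := by
  constructor
  have h := h'.le
  rw [padicNorm.mul, padicNorm.padicNorm_p hp.out.one_lt] at h
  have hp' := p_pos (p := p)
  have e : (p : ℚ) ^ (-((j + 1 : ℕ) : ℤ)) = (p : ℚ)⁻¹ * (p : ℚ) ^ (-(j : ℤ)) := by
    rw [← zpow_neg_one, ← zpow_add₀ hp'.ne']
    congr 1
    push_cast; ring
  rw [e] at h
  exact le_of_mul_le_mul_left h (by positivity)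

lemma D_of_mul_unit {j k : ℕ} (hk : ¬ p ∣ k) {x : ℚ} (h : D p j ((k : ℚ) * x)) : D p j x := by
  have hk0 : (k : ℚ) ≠ 0 := by
    intro h0
    have : k = 0 := by exact_mod_cast h0
    exact hk (this ▸ dvd_zero p)
  have := D_mul (D_inv hk) h
  rw [Nat.zero_add] at this
  have e : (k : ℚ)⁻¹ * ((k : ℚ) * x) = x := by field_simp
  rwa [e] at this

/-- first-order expansions: `x ≡ 1 + p a` modulo `p^2` -/
def E (p : ℕ) [Fact p.Prime] (x a : ℚ) : Prop := D p 0 a ∧ D p 2 (x - 1 - p * a)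

lemma E_one : E p 1 0 := ⟨D_zero 0, by simpa using D_zero 2⟩

lemma E.int {x a : ℚ} (h : E p x a) : D p 0 x := by
  have h1 : D p 0 (x - 1 - p * a) := D_mono (by norm_num) h.2
  have h2 : D p 0 ((p : ℚ) * a) := by
    have := D_mul (D_nat (p := p) p) h.1
    simpa using this
  have h3 := D_add (D_add h1 h2) D_one
  have e : x - 1 - p * a + p * a + 1 = x := by ring
  rwa [e] at h3

lemma E.sub_one {x a : ℚ} (h : E p x a) : D p 1 (x - 1) := by
  have h1 : D p 1 (x - 1 - p * a) := D_mono (by norm_num) h.2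
  have h2 : D p 1 ((p : ℚ) * a) := D_mul D_p h.1
  have h3 := D_add h1 h2
  have e : x - 1 - p * a + p * a = x - 1 := by ring
  rwa [e] at h3

lemma E.norm {x a : ℚ} (h : E p x a) : padicNorm p x = 1 := by
  have h1 : padicNorm p (x - 1) ≤ (p : ℚ) ^ (-((1 : ℕ) : ℤ)) := h.sub_one.le
  have h2 : padicNorm p (x - 1) < 1 := by
    refine lt_of_le_of_lt h1 ?_
    have : (1 : ℚ) < p := by exact_mod_cast hp.out.one_lt
    simpa using inv_lt_one_of_one_lt₀ this
  have h3 : padicNorm p (x - 1) ≠ padicNorm p 1 := by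
    rw [padicNorm.one]; exact h2.ne
  have h4 := padicNorm.add_eq_max_of_ne h3
  rw [padicNorm.one, max_eq_right h2.le] at h4
  rwa [sub_add_cancel] at h4

lemma E.ne_zero {x a : ℚ} (h : E p x a) : x ≠ 0 := by
  intro h0
  have := h.norm
  rw [h0] at this
  simp at this

lemma E.int_inv {x a : ℚ} (h : E p x a) : D p 0 x⁻¹ := by
  constructor
  have h2 : padicNorm p (x⁻¹) * padicNorm p x = 1 := by
    rw [← padicNorm.mul, inv_mul_cancel₀ h.ne_zero]; simp
  rw [h.norm, mul_one] at h2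
  rw [h2]; simp

lemma E_mul {x y a b : ℚ} (hx : E p x a) (hy : E p y b) : E p (x * y) (a + b) := by
  refine ⟨D_add hx.1 hy.1, ?_⟩
  have e : x * y - 1 - p * (a + b) = (x - 1 - p * a) * y + (y - 1 - p * b)
      + (p * a) * (y - 1) := by ring
  rw [e]
  have t1 : D p 2 ((x - 1 - p * a) * y) := D_mul hx.2 hy.int
  have t2 : D p 2 ((p * a) * (y - 1)) := by
    have : D p 1 ((p : ℚ) * a) := D_mul D_p hx.1
    exact D_mul this hy.sub_one
  exact D_add (D_add t1 hy.2) t2

lemma E_inv {x a : ℚ} (hx : E p x a) : E p (x⁻¹) (-a) := by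
  refine ⟨D_neg hx.1, ?_⟩
  have hx0 := hx.ne_zero
  have e : x⁻¹ - 1 - p * (-a) = x⁻¹ * (-(x - 1 - p * a) + (p * a) * (x - 1)) := by
    field_simp; ring
  rw [e]
  have t2 : D p 2 ((p * a) * (x - 1)) := by
    have : D p 1 ((p : ℚ) * a) := D_mul D_p hx.1
    exact D_mul this hx.sub_one
  have t3 := D_mul hx.int_inv (D_add (D_neg hx.2) t2)
  simpa using t3

lemma E_one_sub {c : ℚ} (hc : D p 0 c) : E p (1 - p * c) (-c) := by
  refine ⟨D_neg hc, ?_⟩
  have e : (1 - (p : ℚ) * c) - 1 - p * (-c) = 0 := by ring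
  rw [e]; exact D_zero 2

/-- second-order expansion of a product -/
lemma prod_expand (x : ℕ → ℚ) (n : ℕ) (hx : ∀ i < n, D p 0 (x i)) :
    D p 3 (2 * ∏ i ∈ range n, (1 - p * x i) - (2 - 2 * p * (∑ i ∈ range n, x i)
      + p ^ 2 * ((∑ i ∈ range n, x i) ^ 2 - ∑ i ∈ range n, x i ^ 2))) ∧
    D p 0 (∑ i ∈ range n, x i) ∧ D p 0 (∑ i ∈ range n, x i ^ 2) := by
  induction n with
  | zero =>
    refine ⟨?_, ?_, ?_⟩
    · simp only [range_zero, prod_empty, sum_empty]
      have e : (2 * 1 - (2 - 2 * (p : ℚ) * 0 + p ^ 2 * (0 ^ 2 - 0))) = 0 := by ring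
      rw [e]; exact D_zero 3
    · simpa using D_zero 0
    · simpa using D_zero 0
  | succ n ih =>
    obtain ⟨h1, h2, h3⟩ := ih (fun i hi => hx i (by omega))
    have hn := hx n (by omega)
    rw [prod_range_succ, sum_range_succ, sum_range_succ]
    set P := ∏ i ∈ range n, (1 - (p : ℚ) * x i)
    set S1 := ∑ i ∈ range n, x i
    set S2 := ∑ i ∈ range n, x i ^ 2
    refine ⟨?_, D_add h2 hn, ?_⟩
    · have e : 2 * (P * (1 - p * x n)) - (2 - 2 * p * (S1 + x n)
          + p ^ 2 * ((S1 + x n) ^ 2 - (S2 + x n ^ 2)))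
          = (2 * P - (2 - 2 * p * S1 + p ^ 2 * (S1 ^ 2 - S2))) * (1 - p * x n)
            - p ^ 3 * (x n * (S1 ^ 2 - S2)) := by ring
      rw [e]
      have t1 : D p 0 (1 - (p : ℚ) * x n) := (E_one_sub hn).int
      have t2 := D_mul h1 t1
      have t3 : D p 0 (x n * (S1 ^ 2 - S2)) := by
        have a := D_mul h2 h2
        rw [← pow_two] at a
        exact D_mul hn (D_sub a h3)
      have t4 := D_mul (D_p_pow (p := p) 3) t3
      exact D_sub t2 t4
    · have a := D_mul hn hn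
      rw [← pow_two] at a
      exact D_add h3 a

end Pool.Agent.Lib.MP_4af00a_nt
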