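import Mathlib
import Pool.Agent.Lib.MP_4af00a_nt.Domb
import Pool.Agent.Lib.MP_4af00a_nt.Padic

/-!
Harmonic sums modulo powers of a prime.
-/

namespace Pool.Agent.Lib.MP_4af00a_nt

open Finset

set_option linter.unusedSectionVars false

variable {p : ℕ} [hp : Fact p.Prime]

/-- `1/j` -/
def iv (j : ℕ) : ℚ := (j : ℚ)⁻¹

lemma D_iv {j : ℕ} (h0 : 0 < j) (h : j < p) : D p 0 (iv j) := D_inv_lt h0 h

lemma iv_refl {j : ℕ} (h0 : 0 < j) (h : j < p) : iv (p - j) + iv j = p * (iv (p - j) * iv j) := by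
  unfold iv
  have h1 : (((p - j : ℕ)) : ℚ) = (p : ℚ) - j := by push_cast [Nat.cast_sub h.le]; ring
  rw [h1]
  have h2 : (j : ℚ) ≠ 0 := by positivity
  have h3 : (p : ℚ) - j ≠ 0 := by
    have : (j : ℚ) < p := by exact_mod_cast h
    exact (sub_pos.mpr this).ne'
  field_simp
  ring

lemma iv_refl_D {j : ℕ} (h0 : 0 < j) (h : j < p) : D p 1 (iv (p - j) + iv j) := by
  rw [iv_refl h0 h]
  exact D_mul D_p (D_mul (D_iv (by omega) (by omega)) (D_iv h0 h))

lemma iv_sq_refl {j : ℕ} (h0 : 0 < j) (h : j < p) : D p 1 (iv (p - j) ^ 2 - iv j ^ 2) := by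
  have e : iv (p - j) ^ 2 - iv j ^ 2 = (iv (p - j) + iv j) * (iv (p - j) - iv j) := by ring
  rw [e]
  exact D_mul (iv_refl_D h0 h) (D_sub (D_iv (by omega) (by omega)) (D_iv h0 h))

lemma sum_two_mul (f : ℕ → ℚ) (h : ℕ) :
    ∑ i ∈ range (2 * h), f i = ∑ i ∈ range h, (f (2 * i) + f (2 * i + 1)) := by
  induction h with
  | zero => simp
  | succ h ih =>
    rw [show 2 * (h + 1) = 2 * h + 1 + 1 by ring, sum_range_succ, sum_range_succ, ih,
      sum_range_succ]
    ring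

lemma sum_two_mul_refl (f : ℕ → ℚ) (h : ℕ) :
    ∑ i ∈ range (2 * h), f i = ∑ i ∈ range h, (f i + f (2 * h - 1 - i)) := by
  rw [two_mul, sum_range_add, sum_add_distrib]
  congr 1
  rw [← sum_range_reflect]
  apply sum_congr rfl
  intro i hi
  have := mem_range.mp hi
  congr 1
  omega

/-- sum of inverse squares up to `(p-1)/2` -/
lemma S_half {h : ℕ} (hh : p = 2 * h + 1) (h3 : 3 < p) :
    D p 1 (∑ i ∈ range h, iv (i + 1) ^ 2) := by
  set S := ∑ i ∈ range h, iv (i + 1) ^ 2 with hS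
  have a1 : D p 1 (∑ i ∈ range (2 * h), iv (i + 1) ^ 2 - 2 * S) := by
    rw [sum_two_mul_refl, hS, mul_sum, ← sum_sub_distrib]
    apply D_sum
    intro i hi
    have hi' := mem_range.mp hi
    have e : 2 * h - 1 - i + 1 = p - (i + 1) := by omega
    rw [e]
    have e2 : iv (i + 1) ^ 2 + iv (p - (i + 1)) ^ 2 - 2 * iv (i + 1) ^ 2
      = iv (p - (i + 1)) ^ 2 - iv (i + 1) ^ 2 := by ring
    rw [e2]
    exact iv_sq_refl (by omega) (by omega)
  have a2 : D p 1 (∑ i ∈ range (2 * h), iv (i + 1) ^ 2 - 1 / 2 * S) := by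
    rw [sum_two_mul, sum_add_distrib, ← sum_range_reflect (fun i => iv (2 * i + 1) ^ 2),
      ← sum_add_distrib, hS, mul_sum, ← sum_sub_distrib]
    apply D_sum
    intro i hi
    have hi' := mem_range.mp hi
    have e : 2 * (h - 1 - i) + 1 = p - 2 * (i + 1) := by omega
    have e1 : 2 * i + 1 + 1 = 2 * (i + 1) := by omega
    rw [e, e1]
    have e2 : iv (i + 1) ^ 2 = 4 * iv (2 * (i + 1)) ^ 2 := by
      unfold iv; push_cast; rw [mul_inv]; ring
    have e3 : iv (p - 2 * (i + 1)) ^ 2 + iv (2 * (i + 1)) ^ 2 - 1 / 2 * iv (i + 1) ^ 2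
      = iv (p - 2 * (i + 1)) ^ 2 - iv (2 * (i + 1)) ^ 2 := by rw [e2]; ring
    rw [e3]
    exact iv_sq_refl (by omega) (by omega)
  have a3 := D_sub a2 a1
  have e : ∑ i ∈ range (2 * h), iv (i + 1) ^ 2 - 1 / 2 * S
    - (∑ i ∈ range (2 * h), iv (i + 1) ^ 2 - 2 * S) = 3 / 2 * S := by ring
  rw [e] at a3
  have a4 : D p 1 (((3 : ℕ) : ℚ) * S) := by
    have := D_mul (D_nat (p := p) 2) a3
    rw [Nat.zero_add] at this
    have e : ((2 : ℕ) : ℚ) * (3 / 2 * S) = ((3 : ℕ) : ℚ) * S := by push_cast; ring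
    rwa [e] at this
  exact D_of_mul_unit (not_dvd_of_lt (by norm_num) h3) a4

/-- alternating sum of inverse squares -/
lemma alt_sq {h : ℕ} (hh : p = 2 * h + 1) :
    D p 1 (∑ i ∈ range h, (iv (2 * i + 1) ^ 2 - iv (2 * i + 2) ^ 2)) := by
  rw [sum_sub_distrib, ← sum_range_reflect (fun i => iv (2 * i + 1) ^ 2), ← sum_sub_distrib]
  apply D_sum
  intro i hi
  have hi' := mem_range.mp hi
  have e : 2 * (h - 1 - i) + 1 = p - 2 * (i + 1) := by omega
  have e1 : 2 * i + 2 = 2 * (i + 1) := by omega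
  rw [e, e1]
  exact iv_sq_refl (by omega) (by omega)

/-- Wolstenholme -/
lemma H_full {h : ℕ} (hh : p = 2 * h + 1) (h3 : 3 < p) :
    D p 2 (∑ i ∈ range (2 * h), iv (i + 1)) := by
  rw [sum_two_mul_refl]
  have e1 : ∑ i ∈ range h, (iv (i + 1) + iv (2 * h - 1 - i + 1))
    = p * ∑ i ∈ range h, (iv (p - (i + 1)) * iv (i + 1)) := by
    rw [mul_sum]
    apply sum_congr rfl
    intro i hi
    have hi' := mem_range.mp hi
    have e : 2 * h - 1 - i + 1 = p - (i + 1) := by omega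
    rw [e, ← iv_refl (by omega) (by omega)]
    ring
  rw [e1]
  apply D_mul (i := 1) (j := 1) D_p
  have e2 : ∑ i ∈ range h, (iv (p - (i + 1)) * iv (i + 1))
    = ∑ i ∈ range h, ((iv (p - (i + 1)) + iv (i + 1)) * iv (i + 1))
      - ∑ i ∈ range h, iv (i + 1) ^ 2 := by
    rw [← sum_sub_distrib]
    apply sum_congr rfl
    intro i _
    ring
  rw [e2]
  apply D_sub _ (S_half hh h3)
  apply D_sum
  intro i hi
  have hi' := mem_range.mp hi
  exact D_mul (iv_refl_D (by omega) (by omega)) (D_iv (by omega) (by omega))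

/-- Fermat quotient of 2 -/
def q (p : ℕ) : ℚ := (2 ^ (p - 1) - 1) / p

lemma q_int (h3 : 3 < p) : D p 0 (q p) := by
  have h2 : IsCoprime (2 : ℤ) p := by
    rw [Int.isCoprime_iff_gcd_eq_one]
    have : Nat.Coprime 2 p := (Nat.coprime_primes Nat.prime_two hp.out).mpr (by omega)
    exact_mod_cast this
  have h := Int.ModEq.pow_card_sub_one_eq_one hp.out h2
  have hd : (p : ℤ) ∣ 2 ^ (p - 1) - 1 := (Int.modEq_iff_dvd.mp h.symm)
  obtain ⟨z, hz⟩ := hd
  have hp0 : (p : ℚ) ≠ 0 := p_pos.ne'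
  have : q p = z := by
    unfold q
    rw [div_eq_iff hp0]
    have : ((2 ^ (p - 1) - 1 : ℤ) : ℚ) = ((p * z : ℤ) : ℚ) := by exact_mod_cast hz
    push_cast at this
    rw [this]; ring
  rw [this]
  exact D_int z

lemma two_pow_eq : (2 : ℚ) ^ (p - 1) = 1 + p * q p := by
  unfold q
  have hp0 : (p : ℚ) ≠ 0 := p_pos.ne'
  field_simp
  ring

lemma prod_odd (h : ℕ) : (2 : ℚ) ^ h * ∏ j ∈ range h, (2 * (j : ℚ) + 1) = cb h * h.factorial := by
  induction h with
  | zero => simp [cb_zero]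
  | succ h ih =>
    rw [prod_range_succ, pow_succ, Nat.factorial_succ]
    have := cb_succ h
    push_cast
    have e : cb (h + 1) * ((h + 1 : ℚ) * h.factorial) = (((h : ℚ) + 1) * cb (h + 1)) * h.factorial := by
      ring
    rw [e, this]
    linear_combination (2 * (2 * (h : ℚ) + 1)) * ih

lemma prod_desc (h : ℕ) : ∏ i ∈ range h, (2 * (h : ℚ) - i) = cb h * h.factorial := by
  have h1 := Nat.descFactorial_eq_prod_range (2 * h) h
  rw [Nat.descFactorial_eq_factorial_mul_choose] at h1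
  have h2 := congrArg (Nat.cast : ℕ → ℚ) h1
  rw [Nat.cast_prod, Nat.cast_mul] at h2
  have e : ∏ i ∈ range h, (((2 * h - i : ℕ)) : ℚ) = ∏ i ∈ range h, (2 * (h : ℚ) - i) := by
    apply prod_congr rfl
    intro i hi
    have := mem_range.mp hi
    push_cast [Nat.cast_sub (by omega : i ≤ 2 * h)]
    ring
  rw [← e, ← h2]
  unfold cb
  rw [Nat.centralBinom_eq_two_mul_choose]
  ring

lemma prod_succ_fact (h : ℕ) : ∏ i ∈ range h, ((i : ℚ) + 1) = h.factorial := by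
  induction h with
  | zero => simp
  | succ h ih => rw [prod_range_succ, ih, Nat.factorial_succ]; push_cast; ring

lemma prod_one (h : ℕ) :
    ∏ i ∈ range h, (1 - (2 * (h : ℚ) + 1) * iv (i + 1)) = (-1) ^ h * cb h := by
  have hf : (h.factorial : ℚ) ≠ 0 := by exact_mod_cast h.factorial_ne_zero
  have e : ∀ i ∈ range h, (1 - (2 * (h : ℚ) + 1) * iv (i + 1))
      = (-1) * (2 * (h : ℚ) - i) * ((i : ℚ) + 1)⁻¹ := by
    intro i _
    unfold iv
    push_cast
    field_simp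
    ring
  rw [prod_congr rfl e, prod_mul_distrib, prod_mul_distrib, prod_desc, prod_inv_distrib,
    prod_succ_fact]
  simp
  field_simp

lemma prod_half (h : ℕ) :
    4 ^ h * ∏ i ∈ range h, (1 - (2 * (h : ℚ) + 1) * (iv (i + 1) / 2)) = (-1) ^ h * cb h := by
  have hf : (h.factorial : ℚ) ≠ 0 := by exact_mod_cast h.factorial_ne_zero
  have e : ∀ i ∈ range h, (1 - (2 * (h : ℚ) + 1) * (iv (i + 1) / 2))
      = (-1) * (2 * ((h - 1 - i : ℕ) : ℚ) + 1) * (2⁻¹ * ((i : ℚ) + 1)⁻¹) := by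
    intro i hi
    have := mem_range.mp hi
    unfold iv
    have e1 : ((h - 1 - i : ℕ) : ℚ) = (h : ℚ) - 1 - i := by
      rw [Nat.cast_sub (by omega), Nat.cast_sub (by omega)]; push_cast; ring
    rw [e1]
    push_cast
    field_simp
    ring
  rw [prod_congr rfl e, prod_mul_distrib, prod_mul_distrib, prod_mul_distrib,
    prod_inv_distrib (fun i : ℕ => ((i : ℚ) + 1)),
    prod_succ_fact, prod_range_reflect (fun j => (2 * (j : ℚ) + 1))]
  have := prod_odd h
  have e2 : ∏ j ∈ range h, (2 * (j : ℚ) + 1) = cb h * h.factorial / 2 ^ h := by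
    rw [eq_div_iff (by positivity), ← this]; ring
  rw [e2]
  simp only [prod_const, card_range]
  have e4 : (4 : ℚ) ^ h = 2 ^ h * 2 ^ h := by rw [← mul_pow]; norm_num
  rw [e4]
  field_simp
  rw [one_div, inv_pow]
  field_simp

/-- Lehmer's congruence -/
lemma lehmer {h : ℕ} (hh : p = 2 * h + 1) (h3 : 3 < p) :
    D p 2 (∑ i ∈ range h, iv (i + 1) + 2 * q p - p * q p ^ 2) := by
  have hpq : (p : ℚ) = 2 * h + 1 := by rw [hh]; push_cast; ring
  have h2 : ¬ p ∣ 2 := not_dvd_of_lt (by norm_num) (by omega)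
  obtain ⟨x1, x2, x3⟩ := prod_expand (p := p) (fun i => iv (i + 1)) h
    (fun i hi => D_iv (by omega) (by omega))
  obtain ⟨y1, y2, y3⟩ := prod_expand (p := p) (fun i => iv (i + 1) / 2) h
    (fun i hi => by
      have := D_mul (D_iv (p := p) (j := i + 1) (by omega) (by omega)) (D_inv h2)
      simpa [div_eq_mul_inv] using this)
  have hS := S_half hh h3
  set H := ∑ i ∈ range h, iv (i + 1) with hH
  set S2 := ∑ i ∈ range h, iv (i + 1) ^ 2 with hS2
  have ey : ∑ i ∈ range h, iv (i + 1) / 2 = H / 2 := by rw [hH, sum_div]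
  have ey2 : ∑ i ∈ range h, (iv (i + 1) / 2) ^ 2 = S2 / 4 := by
    rw [hS2, sum_div]
    apply sum_congr rfl
    intro i _
    ring
  rw [ey, ey2] at y1
  set P := ∏ i ∈ range h, (1 - (p : ℚ) * iv (i + 1)) with hP
  set P' := ∏ i ∈ range h, (1 - (p : ℚ) * (iv (i + 1) / 2)) with hP'
  have hq := q_int (p := p) h3
  have hPP : P = (1 + p * q p) * P' := by
    rw [← two_pow_eq]
    have a := prod_one h
    have b := prod_half h
    rw [← hpq] at a b
    rw [← hP] at a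
    rw [← hP'] at b
    rw [a, ← b]
    have : (2 : ℚ) ^ (p - 1) = 4 ^ h := by
      rw [show p - 1 = 2 * h by omega, pow_mul]; norm_num
    rw [this]
  -- combine
  have z1 := D_mul (D_add (D_one (p := p)) (D_mul (D_nat (p := p) p) hq)) y1
  rw [Nat.zero_add] at z1
  have z2 := D_sub x1 z1
  have z3 : D p 3 ((p : ℚ) ^ 2 * S2 * (3 / 4 - p * q p / 4)) := by
    have a : D p 3 ((p : ℚ) ^ 2 * S2) := D_mul (D_p_pow (p := p) 2) hS
    have h4 : ¬ p ∣ 4 := not_dvd_of_lt (by norm_num) (by omega)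
    have b : D p 0 (3 / 4 - p * q p / 4) := by
      have c1 := D_mul (D_nat (p := p) 3) (D_inv h4)
      have c2 := D_mul (D_mul (D_nat (p := p) p) hq) (D_inv h4)
      have := D_sub c1 c2
      simpa [div_eq_mul_inv] using this
    simpa using D_mul a b
  have z4 : D p 3 ((p : ℚ) ^ 3 * (q p * H ^ 2 / 4)) := by
    have h4 : ¬ p ∣ 4 := not_dvd_of_lt (by norm_num) (by omega)
    have b : D p 0 (q p * H ^ 2 / 4) := by
      have c1 := D_mul (D_mul hq (D_mul x2 x2)) (D_inv h4)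
      rw [← pow_two] at c1
      simpa [div_eq_mul_inv] using c1
    simpa using D_mul (D_p_pow (p := p) 3) b
  have z5 := D_add (D_add z2 z3) z4
  have e5 : 2 * P - (2 - 2 * p * H + p ^ 2 * (H ^ 2 - S2)) -
      (1 + p * q p) * (2 * P' - (2 - 2 * p * (H / 2) + p ^ 2 * ((H / 2) ^ 2 - S2 / 4)))
      + (p : ℚ) ^ 2 * S2 * (3 / 4 - p * q p / 4) * 0
      = p * (H + 2 * q p - p * q p * H - 3 / 4 * p * H ^ 2)
        + 3 / 4 * p ^ 2 * S2 - p ^ 3 * q p * S2 / 4 + p ^ 3 * q p * H ^ 2 / 4 := by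
    rw [hPP]; ring
  have w1 : D p 3 (p * (H + 2 * q p - p * q p * H - 3 / 4 * p * H ^ 2)) := by
    have b1 : D p 3 ((p : ℚ) * (H + 2 * q p - p * q p * H - 3 / 4 * p * H ^ 2)
        + ((p : ℚ) ^ 2 * S2 * (3 / 4 - p * q p / 4)) + (p : ℚ) ^ 3 * (q p * H ^ 2 / 4)) := by
      have e : 2 * P - (2 - 2 * p * H + p ^ 2 * (H ^ 2 - S2)) -
        (1 + p * q p) * (2 * P' - (2 - 2 * p * (H / 2) + p ^ 2 * ((H / 2) ^ 2 - S2 / 4)))
        = (p : ℚ) * (H + 2 * q p - p * q p * H - 3 / 4 * p * H ^ 2)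
        + ((p : ℚ) ^ 2 * S2 * (3 / 4 - p * q p / 4)) + (p : ℚ) ^ 3 * (q p * H ^ 2 / 4) := by
        rw [hPP]; ring
      rw [← e]; exact z2
    have b2 := D_sub (D_sub b1 z3) z4
    have e : (p : ℚ) * (H + 2 * q p - p * q p * H - 3 / 4 * p * H ^ 2)
        + ((p : ℚ) ^ 2 * S2 * (3 / 4 - p * q p / 4)) + (p : ℚ) ^ 3 * (q p * H ^ 2 / 4)
        - ((p : ℚ) ^ 2 * S2 * (3 / 4 - p * q p / 4)) - (p : ℚ) ^ 3 * (q p * H ^ 2 / 4)
        = p * (H + 2 * q p - p * q p * H - 3 / 4 * p * H ^ 2) := by ring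
    rwa [e] at b2
  have w2 : D p 2 (H + 2 * q p - p * q p * H - 3 / 4 * p * H ^ 2) := D_of_mul_p w1
  have h4 : ¬ p ∣ 4 := not_dvd_of_lt (by norm_num) (by omega)
  have w3 : D p 1 (H + 2 * q p) := by
    have c1 : D p 1 ((p : ℚ) * (q p * H + 3 / 4 * H ^ 2)) := by
      apply D_mul (i := 1) (j := 0) D_p
      apply D_add (D_mul (i := 0) (j := 0) hq x2)
      have c2 := D_mul (D_mul (D_nat (p := p) 3) (D_inv h4)) (D_mul x2 x2)
      rw [← pow_two] at c2
      simpa [div_eq_mul_inv] using c2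
    have c3 := D_add (D_mono (by norm_num : 1 ≤ 2) w2) c1
    have e : H + 2 * q p - p * q p * H - 3 / 4 * p * H ^ 2 + (p : ℚ) * (q p * H + 3 / 4 * H ^ 2)
      = H + 2 * q p := by ring
    rwa [e] at c3
  have w4 : D p 2 ((p : ℚ) * ((H + 2 * q p) * (3 / 4 * (H - 2 * q p) + q p))) := by
    apply D_mul (i := 1) (j := 1) D_p
    apply D_mul (i := 1) (j := 0) w3
    have c1 : D p 0 (H - 2 * q p) := D_sub x2 (D_mul (i := 0) (j := 0) (by simpa using D_nat (p := p) 2) hq)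
    have c2 := D_mul (D_mul (D_nat (p := p) 3) (D_inv h4)) c1
    have c3 := D_add c2 hq
    simpa [div_eq_mul_inv] using c3
  have w5 := D_add w2 w4
  have e6 : H + 2 * q p - p * q p * H - 3 / 4 * p * H ^ 2
      + (p : ℚ) * ((H + 2 * q p) * (3 / 4 * (H - 2 * q p) + q p))
      = H + 2 * q p - p * q p ^ 2 := by ring
  rwa [e6] at w5

/-- alternating harmonic number -/
def L (n : ℕ) : ℚ := ∑ i ∈ range n, (-1) ^ i * iv (i + 1)

lemma L_succ (n : ℕ) : L (n + 1) = L n + (-1) ^ n * iv (n + 1) := by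
  unfold L; rw [sum_range_succ]

lemma L_two_mul (h : ℕ) :
    L (2 * h) = ∑ i ∈ range (2 * h), iv (i + 1) - ∑ i ∈ range h, iv (i + 1) := by
  unfold L
  rw [sum_two_mul, sum_two_mul, ← sum_sub_distrib]
  apply sum_congr rfl
  intro i _
  have e1 : ((-1 : ℚ)) ^ (2 * i) = 1 := by rw [pow_mul]; norm_num
  have e2 : ((-1 : ℚ)) ^ (2 * i + 1) = -1 := by rw [pow_succ, e1]; norm_num
  rw [e1, e2]
  have e3 : iv (i + 1) = 2 * iv (2 * i + 1 + 1) := by
    unfold iv
    push_cast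
    rw [show (2 * (i : ℚ) + 1 + 1) = 2 * (i + 1) by ring, mul_inv]
    ring
  rw [e3]; ring

lemma L_full {h : ℕ} (hh : p = 2 * h + 1) (h3 : 3 < p) :
    D p 2 (L (2 * h) - 2 * q p + p * q p ^ 2) := by
  rw [L_two_mul]
  have a := H_full hh h3
  have b := lehmer hh h3
  have := D_sub a b
  have e : ∑ i ∈ range (2 * h), iv (i + 1) - ∑ i ∈ range h, iv (i + 1) - 2 * q p + p * q p ^ 2
    = ∑ i ∈ range (2 * h), iv (i + 1) - (∑ i ∈ range h, iv (i + 1) + 2 * q p - p * q p ^ 2) := by ring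
  rw [e]; exact this

end Pool.Agent.Lib.MP_4af00a_nt
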