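import Mathlib
import Pool.Agent.Lib.MP_4af00a_nt.Harm

/-!
The congruence modulo `p^6`.
-/

namespace Pool.Agent.Lib.MP_4af00a_nt

open Finset

set_option linter.unusedSectionVars false

variable {p : ℕ} [hp : Fact p.Prime]

/-- product expansion of the central binomial coefficient -/
lemma cb_prod (n : ℕ) : cb (n + 1) = 2 * ∏ i ∈ range n, (1 + ((n : ℚ) + 1) * iv (i + 1)) := by
  have h1 := Nat.ascFactorial_eq_factorial_mul_choose (n + 1) n
  have h2 : (n + 1 + 1).ascFactorial n = ∏ i ∈ range n, (n + 1 + 1 + i) :=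
    Nat.ascFactorial_eq_prod_range _ _
  rw [h1] at h2
  have h3 : cb (n + 1) = 2 * ((n + 1 + n).choose n : ℚ) := by
    unfold cb
    have h4 : Nat.centralBinom (n + 1) = 2 * (2 * n + 1).choose n :=
      Nat.centralBinom_eq_two_mul_choose (n + 1) ▸ by
        rw [show 2 * (n + 1) = 2 * n + 1 + 1 by ring, Nat.choose_succ_succ]
        rw [Nat.choose_symm_half]; ring
    rw [h4, show n + 1 + n = 2 * n + 1 by ring]
    push_cast; ring
  rw [h3]
  congr 1
  have hf : (n.factorial : ℚ) ≠ 0 := by exact_mod_cast n.factorial_ne_zero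
  have h5 := congrArg (Nat.cast : ℕ → ℚ) h2
  rw [Nat.cast_mul, Nat.cast_prod] at h5
  have h6 : ∏ i ∈ range n, (1 + ((n : ℚ) + 1) * iv (i + 1))
      = (∏ i ∈ range n, (((n + 1 + 1 + i : ℕ)) : ℚ)) * (n.factorial : ℚ)⁻¹ := by
    rw [← prod_succ_fact, ← prod_inv_distrib, ← prod_mul_distrib]
    apply prod_congr rfl
    intro i _
    unfold iv
    push_cast
    field_simp
    ring
  rw [h6, ← h5]
  field_simp

lemma E_prod_add (n : ℕ) (x : ℕ → ℚ) (hx : ∀ i < n, D p 0 (x i)) :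
    E p (∏ i ∈ range n, (1 + p * x i)) (∑ i ∈ range n, x i) := by
  induction n with
  | zero => simpa using E_one
  | succ n ih =>
    rw [prod_range_succ, sum_range_succ]
    apply E_mul (ih (fun i hi => hx i (by omega)))
    have := E_one_sub (D_neg (hx n (by omega)))
    simpa using this

lemma E_congr {x a b : ℚ} (h : E p x a) (hab : D p 1 (a - b)) (hb : D p 0 b) : E p x b := by
  refine ⟨hb, ?_⟩
  have e : x - 1 - p * b = (x - 1 - p * a) + p * (a - b) := by ring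
  rw [e]
  exact D_add h.2 (D_mul D_p hab)

/-- `(central binomial at p) / 2 ≡ 1 mod p^2` -/
lemma E_cb {h : ℕ} (hh : p = 2 * h + 1) (h3 : 3 < p) : E p (cb p / 2) 0 := by
  have e : cb p / 2 = ∏ i ∈ range (2 * h), (1 + (p : ℚ) * iv (i + 1)) := by
    have := cb_prod (2 * h)
    rw [← hh] at this
    rw [this, mul_div_cancel_left₀ _ (by norm_num)]
    apply prod_congr rfl
    intro i _
    rw [hh]; push_cast; ring
  rw [e]
  have h1 := E_prod_add (p := p) (2 * h) (fun i => iv (i + 1)) (fun i hi => D_iv (by omega) (by omega))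
  apply E_congr h1 _ (D_zero 0)
  rw [sub_zero]
  exact D_mono (by norm_num) (H_full hh h3)

/-- normalised summand -/
noncomputable def Rk (p k : ℕ) : ℚ := (2 * (k : ℚ) + 1) ^ 2 * Sg (p - 1) k / (p : ℚ) ^ 2

/-- expected first-order coefficient -/
def ek (k : ℕ) : ℚ := 3 * L (2 * k + 1) + iv (2 * k + 1)

lemma E_R0 {h : ℕ} (hh : p = 2 * h + 1) (h3 : 3 < p) : E p (Rk p 0) (ek 0) := by
  have hp0 : (p : ℚ) ≠ 0 := p_pos.ne'
  have h1 := cb_succ (p - 1)
  have e1 : p - 1 + 1 = p := by omega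
  have e2 : ((p - 1 : ℕ) : ℚ) = (p : ℚ) - 1 := by
    push_cast [Nat.cast_sub (by omega : 1 ≤ p)]; ring
  rw [e1, e2] at h1
  have hE := E_cb hh h3
  have h2 : E p (1 - (p : ℚ) * 2) (-2) := by
    apply E_one_sub
    simpa using D_nat (p := p) 2
  have h4 := E_mul hE (E_inv h2)
  have h5 := E_mul h4 h4
  have h6 : (1 - (p : ℚ) * 2) ≠ 0 := h2.ne_zero
  have e3 : Rk p 0 = cb p / 2 * (1 - (p : ℚ) * 2)⁻¹ * (cb p / 2 * (1 - (p : ℚ) * 2)⁻¹) := by
    unfold Rk Sg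
    simp only [Nat.sub_zero, Nat.choose_zero_right, cb_zero]
    have e4 : cb (p - 1) = (p : ℚ) * (cb p / 2) * (-(1 - (p : ℚ) * 2)⁻¹) := by
      field_simp
      linear_combination h1
    rw [e4]
    push_cast
    field_simp
    ring
  rw [e3]
  have e5 : ek 0 = 0 + -(-2) + (0 + -(-2)) := by
    simp [ek, L, iv]; norm_num
  rw [e5]
  exact h5

lemma E_Rk_step {h : ℕ} (hh : p = 2 * h + 1) (k : ℕ) (hk : k + 1 < h) (ih : E p (Rk p k) (ek k)) :
    E p (Rk p (k + 1)) (ek (k + 1)) := by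
  have hp0 : (p : ℚ) ≠ 0 := p_pos.ne'
  have h1 := Sg_right (p - 1) k
  have e2 : ((p - 1 : ℕ) : ℚ) = (p : ℚ) - 1 := by
    push_cast [Nat.cast_sub (by omega : 1 ≤ p)]; ring
  rw [e2] at h1
  have f1 : E p (1 - (p : ℚ) * iv (2 * k + 1)) (-iv (2 * k + 1)) :=
    E_one_sub (D_iv (by omega) (by omega))
  have f2 : E p (1 - (p : ℚ) * iv (2 * k + 2)) (-iv (2 * k + 2)) :=
    E_one_sub (D_iv (by omega) (by omega))
  have f3 : E p (1 - (p : ℚ) * iv (k + 1)) (-iv (k + 1)) :=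
    E_one_sub (D_iv (by omega) (by omega))
  have f4 : E p (1 - (p : ℚ) * (2 * iv (2 * k + 3))) (-(2 * iv (2 * k + 3))) := by
    apply E_one_sub
    have := D_mul (D_nat (p := p) 2) (D_iv (p := p) (j := 2 * k + 3) (by omega) (by omega))
    simpa using this
  have g := E_mul (E_mul (E_mul (E_mul ih f1) f2) f3) (E_mul (E_inv f4) (E_inv f4))
  have f4n := f4.ne_zero
  have n1 : (2 * (k : ℚ) + 1) ≠ 0 := by positivity
  have n2 : (2 * (k : ℚ) + 2) ≠ 0 := by positivity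
  have n3 : (2 * (k : ℚ) + 3) ≠ 0 := by positivity
  have n4 : ((k : ℚ) + 1) ≠ 0 := by positivity
  have n5 : (2 * (p : ℚ) - 2 * k - 3) ≠ 0 := by
    have : ((2 * k + 3 : ℕ) : ℚ) < ((2 * p : ℕ) : ℚ) := by
      exact_mod_cast (by omega : 2 * k + 3 < 2 * p)
    push_cast at this
    intro h0
    linarith
  have e3 : Sg (p - 1) (k + 1) = -(((p : ℚ) - 1 - 2 * k) * (p - 2 - 2 * k) * (2 * k + 1) * (p - 1 - k))
      * Sg (p - 1) k / (2 * (k + 1) ^ 2 * (2 * (p : ℚ) - 2 * k - 3) ^ 2) := by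
    rw [eq_div_iff (by positivity)]
    linear_combination h1
  have e4 : Rk p (k + 1) = Rk p k * (1 - (p : ℚ) * iv (2 * k + 1)) * (1 - (p : ℚ) * iv (2 * k + 2))
      * (1 - (p : ℚ) * iv (k + 1)) * ((1 - (p : ℚ) * (2 * iv (2 * k + 3)))⁻¹
        * (1 - (p : ℚ) * (2 * iv (2 * k + 3)))⁻¹) := by
    have e5 : (1 - (p : ℚ) * (2 * iv (2 * k + 3)))⁻¹ = -(2 * k + 3) / (2 * (p : ℚ) - 2 * k - 3) := by
      unfold iv
      push_cast
      rw [inv_eq_iff_eq_inv, inv_div, eq_div_iff (by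
        rw [neg_ne_zero]; exact n3)]
      field_simp
      ring
    rw [e5]
    unfold Rk iv
    rw [e3]
    push_cast
    field_simp
    ring
  have e6 : ek (k + 1) = ek k + -iv (2 * k + 1) + -iv (2 * k + 2) + -iv (k + 1)
      + (-(-(2 * iv (2 * k + 3))) + -(-(2 * iv (2 * k + 3)))) := by
    unfold ek
    rw [show 2 * (k + 1) + 1 = 2 * k + 1 + 1 + 1 by ring, L_succ, L_succ]
    have s1 : ((-1 : ℚ)) ^ (2 * k + 1) = -1 := by
      rw [pow_succ, pow_mul]; norm_num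
    have s2 : ((-1 : ℚ)) ^ (2 * k + 1 + 1) = 1 := by
      rw [pow_succ, s1]; norm_num
    rw [s1, s2]
    have s3 : iv (k + 1) = 2 * iv (2 * k + 1 + 1) := by
      unfold iv
      push_cast
      rw [show (2 * (k : ℚ) + 1 + 1) = 2 * (k + 1) by ring, mul_inv]
      ring
    rw [s3]
    ring
  rw [e4, e6]
  exact g

lemma E_Rk {h : ℕ} (hh : p = 2 * h + 1) (h3 : 3 < p) (k : ℕ) (hk : k < h) :
    E p (Rk p k) (ek k) := by
  induction k with
  | zero => exact E_R0 hh h3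
  | succ k ih => exact E_Rk_step hh k hk (ih (by omega))

/-- each term of `U (p-1) / p^2` -/
lemma Ut_cong {h : ℕ} (hh : p = 2 * h + 1) (h3 : 3 < p) (k : ℕ) (hk : k < h) :
    D p 2 (Ut (p - 1) k / (p : ℚ) ^ 2 + 2 * (iv (2 * k + 1) - iv (2 * k + 2))
      * (1 + 3 * p * L (2 * k + 1))) := by
  have hp0 : (p : ℚ) ≠ 0 := p_pos.ne'
  have h1 := E_Rk hh h3 k hk
  have f1 : E p (1 - (p : ℚ) * iv (2 * k + 1)) (-iv (2 * k + 1)) :=
    E_one_sub (D_iv (by omega) (by omega))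
  have g := E_mul f1 h1
  have e2 : ((p - 1 : ℕ) : ℚ) = (p : ℚ) - 1 := by
    push_cast [Nat.cast_sub (by omega : 1 ≤ p)]; ring
  have n1 : (2 * (k : ℚ) + 1) ≠ 0 := by positivity
  have n2 : (2 * (k : ℚ) + 2) ≠ 0 := by positivity
  have n4 : ((k : ℚ) + 1) ≠ 0 := by positivity
  have e3 : Ut (p - 1) k / (p : ℚ) ^ 2 = -(2 * (iv (2 * k + 1) - iv (2 * k + 2))) *
      ((1 - (p : ℚ) * iv (2 * k + 1)) * Rk p k) := by
    unfold Ut Rk iv
    rw [e2]
    push_cast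
    field_simp
    ring
  have e4 : -iv (2 * k + 1) + ek k = 3 * L (2 * k + 1) := by unfold ek; ring
  rw [e4] at g
  have e5 : Ut (p - 1) k / (p : ℚ) ^ 2 + 2 * (iv (2 * k + 1) - iv (2 * k + 2))
      * (1 + 3 * p * L (2 * k + 1)) = -(2 * (iv (2 * k + 1) - iv (2 * k + 2))) *
      ((1 - (p : ℚ) * iv (2 * k + 1)) * Rk p k - 1 - p * (3 * L (2 * k + 1))) := by
    rw [e3]; ring
  rw [e5]
  have t : D p 0 (-(2 * (iv (2 * k + 1) - iv (2 * k + 2)))) := by
    apply D_neg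
    have := D_mul (D_nat (p := p) 2) (D_sub (D_iv (p := p) (j := 2 * k + 1) (by omega) (by omega))
      (D_iv (p := p) (j := 2 * k + 2) (by omega) (by omega)))
    simpa using this
  simpa using D_mul t g.2

lemma tele (h : ℕ) : ∑ k ∈ range h, 2 * (iv (2 * k + 1) - iv (2 * k + 2)) * (1 + 3 * (p : ℚ) * L (2 * k + 1))
    = 2 * L (2 * h) + 3 * p * L (2 * h) ^ 2
      + 3 * p * ∑ k ∈ range h, (iv (2 * k + 1) ^ 2 - iv (2 * k + 2) ^ 2) := by
  induction h with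
  | zero => simp [L]
  | succ h ih =>
    rw [sum_range_succ, sum_range_succ, ih, show 2 * (h + 1) = 2 * h + 1 + 1 by ring, L_succ (2 * h + 1),
      L_succ (2 * h)]
    have s1 : ((-1 : ℚ)) ^ (2 * h + 1) = -1 := by
      rw [pow_succ, pow_mul]; norm_num
    have s0 : ((-1 : ℚ)) ^ (2 * h) = 1 := by
      rw [pow_mul]; norm_num
    rw [s1, s0, show 2 * h + 2 = 2 * h + 1 + 1 by ring]
    ring

/-- main congruence for `A p` -/
theorem A_cong (h3 : 3 < p) :
    D p 6 (A p - 16 ^ (p - 1) * (-4 * p ^ 4 * q p + 6 * p ^ 5 * q p ^ 2)) := by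
  obtain ⟨h, hh⟩ : ∃ h, p = 2 * h + 1 := by
    rcases hp.out.eq_two_or_odd' with h2 | h2
    · omega
    · exact h2
  have hp0 : (p : ℚ) ≠ 0 := p_pos.ne'
  have hU : U (p - 1) = ∑ k ∈ range h, Ut (p - 1) k := by
    have h1 : U (p - 1) = ∑ k ∈ range (h + 1), Ut (p - 1) k := by
      have := U_ext (by omega : p - 1 < p)
      rw [← this]
      obtain ⟨r, hr⟩ := Nat.exists_eq_add_of_le (by omega : h + 1 ≤ p)
      rw [hr, sum_range_add, add_eq_left]
      apply sum_eq_zero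
      intro i _
      exact Ut_zero (by omega)
    rw [h1, sum_range_succ, add_eq_left]
    unfold Ut
    have : ((p - 1 : ℕ) : ℚ) = 2 * h := by
      rw [show p - 1 = 2 * h by omega]; push_cast; ring
    rw [this]; simp
  have hA : A p = (p : ℚ) ^ 2 * U (p - 1) := by
    have := A_eq_U (p - 1)
    rw [show p - 1 + 1 = p by omega] at this
    rw [this]
    push_cast [Nat.cast_sub (by omega : 1 ≤ p)]
    ring
  -- sum of the congruences
  have c1 : D p 2 (∑ k ∈ range h, (Ut (p - 1) k / (p : ℚ) ^ 2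
      + 2 * (iv (2 * k + 1) - iv (2 * k + 2)) * (1 + 3 * p * L (2 * k + 1)))) := by
    apply D_sum
    intro k hk
    exact Ut_cong hh h3 k (mem_range.mp hk)
  rw [sum_add_distrib, tele, ← sum_div, ← hU] at c1
  have c2 : D p 2 (3 * (p : ℚ) * ∑ k ∈ range h, (iv (2 * k + 1) ^ 2 - iv (2 * k + 2) ^ 2)) := by
    have a := alt_sq hh
    have b : D p 1 (3 * (p : ℚ)) := by
      have := D_mul (D_nat (p := p) 3) D_p
      simpa using this
    exact D_mul b a
  have hq := q_int (p := p) h3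
  have hL := L_full hh h3
  set X := U (p - 1) / (p : ℚ) ^ 2 with hX
  set Λ := 3 * (p : ℚ) * ∑ k ∈ range h, (iv (2 * k + 1) ^ 2 - iv (2 * k + 2) ^ 2)
  set ℓ := L (2 * h)
  set Q := q p
  have hℓ : D p 0 ℓ := by
    have a : D p 0 (ℓ - 2 * Q + p * Q ^ 2) := D_mono (by norm_num) hL
    have b : D p 0 (2 * Q) := by simpa using D_mul (D_nat (p := p) 2) hq
    have c : D p 0 ((p : ℚ) * Q ^ 2) := by
      have := D_mul (D_nat (p := p) p) (D_mul hq hq)
      rw [← pow_two] at this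
      simpa using this
    have := D_sub (D_add a b) c
    have e : ℓ - 2 * Q + p * Q ^ 2 + 2 * Q - p * Q ^ 2 = ℓ := by ring
    rwa [e] at this
  -- X ≡ -2ℓ - 3pℓ^2
  have c3 : D p 2 (X + (2 * ℓ + 3 * p * ℓ ^ 2)) := by
    have := D_sub c1 c2
    have e : X + (2 * ℓ + 3 * p * ℓ ^ 2 + Λ) - Λ = X + (2 * ℓ + 3 * p * ℓ ^ 2) := by ring
    rwa [e] at this
  -- replace ℓ
  have c4 : D p 2 (2 * (ℓ - 2 * Q + p * Q ^ 2)) := by
    simpa using D_mul (D_nat (p := p) 2) hL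
  have c5 : D p 1 (ℓ - 2 * Q) := by
    have a : D p 1 (ℓ - 2 * Q + p * Q ^ 2) := D_mono (by norm_num) hL
    have c : D p 1 ((p : ℚ) * Q ^ 2) := by
      have := D_mul D_p (D_mul hq hq)
      rw [← pow_two] at this
      exact this
    have := D_sub a c
    have e : ℓ - 2 * Q + p * Q ^ 2 - p * Q ^ 2 = ℓ - 2 * Q := by ring
    rwa [e] at this
  have c6 : D p 2 (3 * (p : ℚ) * ((ℓ - 2 * Q) * (ℓ + 2 * Q))) := by
    have b : D p 1 (3 * (p : ℚ)) := by
      have := D_mul (D_nat (p := p) 3) D_p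
      simpa using this
    have b2 : D p 0 (ℓ + 2 * Q) := D_add hℓ (by simpa using D_mul (D_nat (p := p) 2) hq)
    exact D_mul b (D_mul c5 b2)
  have c7 : D p 2 (X + 4 * Q + 10 * p * Q ^ 2) := by
    have := D_sub (D_sub c3 c4) c6
    have e : X + (2 * ℓ + 3 * p * ℓ ^ 2) - 2 * (ℓ - 2 * Q + p * Q ^ 2)
        - 3 * (p : ℚ) * ((ℓ - 2 * Q) * (ℓ + 2 * Q)) = X + 4 * Q + 10 * p * Q ^ 2 := by ring
    rwa [e] at this
  -- the power of 16
  have e16 : (16 : ℚ) ^ (p - 1) = (1 + p * Q) ^ 4 := by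
    rw [← two_pow_eq, ← pow_mul, mul_comm, pow_mul]; norm_num
  have c9 : D p 2 (X - (1 + p * Q) ^ 4 * (-4 * Q + 6 * p * Q ^ 2)) := by
    have hpQ : D p 0 ((p : ℚ) * Q) := by simpa using D_mul (D_nat (p := p) p) hq
    -- (1+pQ)^4(-4Q+6pQ^2) = -4Q - 10 p Q^2 + p^2 Q^3 * (...)
    have d0 : D p 0 (Q * Q * Q * (20 * (p * Q) ^ 2 + 6 * (p * Q) ^ 3 + 20 * (p * Q))) := by
      have a1 := D_mul hpQ hpQ
      have a2 := D_mul a1 hpQ
      have b1 := D_mul (D_nat (p := p) 20) a1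
      have b2 := D_mul (D_nat (p := p) 6) a2
      have b3 := D_mul (D_nat (p := p) 20) hpQ
      have b := D_add (D_add b1 b2) b3
      have e : (20 * (p * Q) ^ 2 + 6 * (p * Q) ^ 3 + 20 * (p * Q))
        = ((20 : ℕ) : ℚ) * (p * Q * (p * Q)) + ((6 : ℕ) : ℚ) * (p * Q * (p * Q) * (p * Q))
          + ((20 : ℕ) : ℚ) * (p * Q) := by push_cast; ring
      rw [e]
      have := D_mul (D_mul (D_mul hq hq) hq) b
      simpa using this
    have d1 := D_mul (D_p_pow (p := p) 2) d0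
    have := D_sub c7 d1
    have e : X + 4 * Q + 10 * p * Q ^ 2 - (p : ℚ) ^ 2 * (Q * Q * Q * (20 * (p * Q) ^ 2
        + 6 * (p * Q) ^ 3 + 20 * (p * Q)))
        = X - (1 + p * Q) ^ 4 * (-4 * Q + 6 * p * Q ^ 2) := by ring
    rwa [e] at this
  have c10 := D_mul (D_p_pow (p := p) 4) c9
  have e : (p : ℚ) ^ 4 * (X - (1 + p * Q) ^ 4 * (-4 * Q + 6 * p * Q ^ 2))
      = A p - 16 ^ (p - 1) * (-4 * p ^ 4 * Q + 6 * p ^ 5 * Q ^ 2) := by
    rw [hA, e16, hX]
    field_simp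
  rw [e] at c10
  exact c10

end Pool.Agent.Lib.MP_4af00a_nt
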