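import Mathlib
import Pool.Agent.Lib.MP_4af00a_nt.Domb

/-!
Divisibility and 2-adic analysis of the second closed form.
-/

namespace Pool.Agent.Lib.MP_4af00a_nt

open Finset

/-! ### Super Catalan numbers -/

/-- super Catalan numbers, integrality by recursion -/
def sc : ℕ → ℕ → ℤ
  | 0, n => (Nat.centralBinom n : ℤ)
  | m + 1, n => 4 * sc m n - sc m (n + 1)

lemma ch_rel (m n : ℕ) :
    ((m : ℚ) + 1) * ((m + 1 + n).choose (m + 1) : ℚ) = (m + n + 1) * ((m + n).choose m : ℚ) := by
  have h := Nat.add_one_mul_choose_eq (m + n) m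
  have : (((m + n + 1) * (m + n).choose m : ℕ) : ℚ) = (((m + n + 1).choose (m + 1) * (m + 1) : ℕ) : ℚ) := by
    exact_mod_cast h
  push_cast at this
  rw [show m + 1 + n = m + n + 1 by ring]
  linarith

lemma ch_rel' (m n : ℕ) :
    ((n : ℚ) + 1) * ((m + (n + 1)).choose m : ℚ) = (m + n + 1) * ((m + n).choose m : ℚ) := by
  have := ch_succ_left (m + n) m
  push_cast at this
  rw [show m + (n + 1) = m + n + 1 by ring, ← this]
  ring

lemma sc_mul (m n : ℕ) : (sc m n : ℚ) * ((m + n).choose m : ℚ) = cb m * cb n := by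
  induction m generalizing n with
  | zero => simp [sc, cb]
  | succ m ih =>
    have h1 := ih n
    have h2 := ih (n + 1)
    have h3 := ch_rel m n
    have h4 := ch_rel' m n
    have h5 := cb_succ m
    have h6 := cb_succ n
    have n6 : ((m : ℚ) + 1) ≠ 0 := by positivity
    simp only [sc]
    push_cast
    apply mul_left_cancel₀ n6
    have e1 : ((m : ℚ) + 1) * ((4 * (sc m n : ℚ) - (sc m (n + 1) : ℚ)) * ((m + 1 + n).choose (m + 1) : ℚ))
      = (4 * (sc m n : ℚ) - (sc m (n + 1) : ℚ)) * (((m : ℚ) + 1) * ((m + 1 + n).choose (m + 1) : ℚ)) := by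
      ring
    rw [e1, h3]
    have e2 : (4 * (sc m n : ℚ) - (sc m (n + 1) : ℚ)) * (((m : ℚ) + n + 1) * ((m + n).choose m : ℚ))
      = 4 * ((m : ℚ) + n + 1) * ((sc m n : ℚ) * ((m + n).choose m : ℚ))
        - (sc m (n + 1) : ℚ) * (((m : ℚ) + n + 1) * ((m + n).choose m : ℚ)) := by ring
    rw [e2, h1, ← h4]
    have e3 : (sc m (n + 1) : ℚ) * (((n : ℚ) + 1) * ((m + (n + 1)).choose m : ℚ))
      = (n + 1) * ((sc m (n + 1) : ℚ) * ((m + (n + 1)).choose m : ℚ)) := by ring
    rw [e3, h2]
    have e4 : ((n : ℚ) + 1) * (cb m * cb (n + 1)) = cb m * (((n : ℚ) + 1) * cb (n + 1)) := by ring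
    rw [e4, h6]
    have e5 : ((m : ℚ) + 1) * (cb (m + 1) * cb n) = (((m : ℚ) + 1) * cb (m + 1)) * cb n := by ring
    rw [e5, h5]
    ring

lemma sc_mul_int (m n : ℕ) :
    sc m n * ((m + n).choose m : ℤ) = (Nat.centralBinom m : ℤ) * (Nat.centralBinom n : ℤ) := by
  have := sc_mul m n
  unfold cb at this
  exact_mod_cast this

lemma sc_pos (m n : ℕ) : 0 < sc m n := by
  have h := sc_mul_int m n
  have h1 : (0 : ℤ) < (Nat.centralBinom m : ℤ) * (Nat.centralBinom n : ℤ) := by
    have a := Nat.centralBinom_pos m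
    have b := Nat.centralBinom_pos n
    positivity
  rw [← h] at h1
  have h2 : (0 : ℤ) ≤ ((m + n).choose m : ℤ) := by positivity
  exact pos_of_mul_pos_left h1 h2

/-- super Catalan numbers as naturals -/
def S (m n : ℕ) : ℕ := (sc m n).toNat

lemma S_cast (m n : ℕ) : (S m n : ℤ) = sc m n := Int.toNat_of_nonneg (sc_pos m n).le

lemma S_pos (m n : ℕ) : 0 < S m n := by
  have := sc_pos m n
  rw [← S_cast] at this
  exact_mod_cast this

lemma S_mul (m n : ℕ) :
    S m n * (m + n).choose m = Nat.centralBinom m * Nat.centralBinom n := by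
  have := sc_mul_int m n
  rw [← S_cast] at this
  exact_mod_cast this

/-! ### digit sums -/

/-- binary digit sum -/
def s (n : ℕ) : ℕ := (Nat.digits 2 n).sum

lemma v2_fact (n : ℕ) : padicValNat 2 n.factorial + s n = n := by
  have h := @sub_one_mul_padicValNat_factorial 2 _ n
  have h2 := Nat.digit_sum_le 2 n
  unfold s
  omega

lemma s_zero : s 0 = 0 := by simp [s]

lemma s_pos {n : ℕ} (h : 0 < n) : 0 < s n := by
  have h1 := v2_fact n
  have h2 := padicValNat_factorial_lt_of_ne_zero 2 h.ne'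
  omega

lemma s_two_mul (n : ℕ) : s (2 * n) = s n := by
  rcases Nat.eq_zero_or_pos n with h | h
  · subst h; simp
  · unfold s
    rw [Nat.digits_def' (by norm_num) (by omega)]
    simp

lemma s_two_mul_add_one (n : ℕ) : s (2 * n + 1) = s n + 1 := by
  unfold s
  rw [Nat.digits_def' (by norm_num) (by omega)]
  have h1 : (2 * n + 1) % 2 = 1 := by omega
  have h2 : (2 * n + 1) / 2 = n := by omega
  rw [h1, h2]
  simp [add_comm]

lemma s_two_pow (a : ℕ) : s (2 ^ a) = 1 := by
  induction a with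
  | zero => simp [s]
  | succ a ih => rw [pow_succ, mul_comm, s_two_mul, ih]

lemma s_eq_one {n : ℕ} (h : s n = 1) : ∃ a, n = 2 ^ a := by
  induction n using Nat.strong_induction_on with
  | _ n ih =>
    rcases Nat.even_or_odd' n with ⟨c, hc | hc⟩
    · subst hc
      rw [s_two_mul] at h
      rcases Nat.eq_zero_or_pos c with h0 | h0
      · subst h0; simp [s] at h
      · obtain ⟨a, ha⟩ := ih c (by omega) h
        exact ⟨a + 1, by rw [ha]; ring⟩
    · subst hc
      rw [s_two_mul_add_one] at h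
      have : s c = 0 := by omega
      rcases Nat.eq_zero_or_pos c with h0 | h0
      · exact ⟨0, by simp [h0]⟩
      · have := s_pos h0; omega

lemma v2_choose (k l : ℕ) : padicValNat 2 ((k + l).choose k) + s (k + l) = s k + s l := by
  have h := Nat.choose_mul_factorial_mul_factorial (show k ≤ k + l by omega)
  rw [Nat.add_sub_cancel_left] at h
  have hv : padicValNat 2 ((k + l).choose k) + padicValNat 2 k.factorial
      + padicValNat 2 l.factorial = padicValNat 2 (k + l).factorial := by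
    rw [← padicValNat.mul, ← padicValNat.mul, h]
    · exact mul_ne_zero (Nat.choose_pos (by omega)).ne' (Nat.factorial_ne_zero _)
    · exact Nat.factorial_ne_zero _
    · exact (Nat.choose_pos (by omega)).ne'
    · exact Nat.factorial_ne_zero _
  have a := v2_fact k
  have b := v2_fact l
  have c := v2_fact (k + l)
  omega

lemma v2_cb (n : ℕ) : padicValNat 2 (Nat.centralBinom n) = s n := by
  have h := v2_choose n n
  have h2 : (n + n).choose n = Nat.centralBinom n := by
    rw [Nat.centralBinom_eq_two_mul_choose]; congr 1; ring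
  rw [h2, show n + n = 2 * n by ring, s_two_mul] at h
  omega

lemma v2_S (k l : ℕ) : padicValNat 2 (S k l) = s (k + l) := by
  have h := congrArg (padicValNat 2) (S_mul k l)
  rw [padicValNat.mul (S_pos k l).ne' (Nat.choose_pos (by omega)).ne',
    padicValNat.mul (Nat.centralBinom_pos k).ne' (Nat.centralBinom_pos l).ne', v2_cb, v2_cb] at h
  have := v2_choose k l
  omega

lemma two_mul_catalan (l : ℕ) : 2 * (2 * l + 1) * catalan l = Nat.centralBinom (l + 1) := by
  have h1 := Nat.succ_mul_centralBinom_succ l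
  have h2 := succ_mul_catalan_eq_centralBinom l
  have h3 : 0 < l + 1 := by omega
  apply Nat.eq_of_mul_eq_mul_left h3
  rw [h1, ← h2]
  ring

lemma catalan_pos (l : ℕ) : 0 < catalan l := by
  have h2 := succ_mul_catalan_eq_centralBinom l
  have := Nat.centralBinom_pos l
  rw [← h2] at this
  exact Nat.pos_of_mul_pos_left this

lemma v2_catalan (l : ℕ) : padicValNat 2 (catalan l) + 1 = s (l + 1) := by
  have h := congrArg (padicValNat 2) (two_mul_catalan l)
  rw [v2_cb, padicValNat.mul (by positivity) (catalan_pos l).ne',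
    padicValNat.mul (by norm_num) (by positivity)] at h
  have h1 : padicValNat 2 (2 * l + 1) = 0 := padicValNat.eq_zero_of_not_dvd (by omega)
  have h2 : padicValNat 2 2 = 1 := padicValNat_self
  omega

/-- the integer summand -/
def M (k l : ℕ) : ℕ := S k (l + 1) * (k + l).choose k * (l + 1).choose k * catalan l

lemma M_eq (k l : ℕ) :
    ((k : ℚ) + l + 1) * (M k l : ℚ) = ((l + 1).choose k : ℚ) * cb k * cb (l + 1) * cb l := by
  unfold M
  push_cast
  have h1 : (S k (l + 1) : ℚ) * ((k + (l + 1)).choose k : ℚ) = cb k * cb (l + 1) := by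
    have := S_mul k (l + 1)
    unfold cb
    exact_mod_cast this
  have h2 : ((l : ℚ) + 1) * (catalan l : ℚ) = cb l := by
    have := succ_mul_catalan_eq_centralBinom l
    unfold cb
    exact_mod_cast this
  have h3 := ch_rel' k l
  calc ((k : ℚ) + l + 1) * ((S k (l + 1) : ℚ) * ((k + l).choose k : ℚ) * ((l + 1).choose k : ℚ) * (catalan l : ℚ))
      = (S k (l + 1) : ℚ) * (((k : ℚ) + l + 1) * ((k + l).choose k : ℚ)) * ((l + 1).choose k : ℚ) * (catalan l : ℚ) := by ring
    _ = (S k (l + 1) : ℚ) * ((k + (l + 1)).choose k : ℚ) * ((l + 1).choose k : ℚ) * (((l : ℚ) + 1) * (catalan l : ℚ)) := by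
        rw [← h3]; ring
    _ = _ := by rw [h1, h2]; ring

lemma Tt_eq_M (k l : ℕ) : Tt (k + l + 1) k = ((k : ℚ) + l + 1) * ((-1) ^ k * (M k l : ℚ)) := by
  have h := M_eq k l
  have h1 := cb_succ l
  unfold Tt Sg
  have e1 : k + l + 1 - k = l + 1 := by omega
  rw [e1]
  push_cast
  have e2 : ((k : ℚ) + l + 1 - k) = l + 1 := by ring
  rw [e2]
  have n1 : (2 * (l : ℚ) + 1) ≠ 0 := by positivity
  have e3 : (2 * ((l : ℚ) + 1) - 1) = 2 * l + 1 := by ring
  rw [e3]
  have e4 : ((k : ℚ) + l + 1) * ((-1) ^ k * (M k l : ℚ)) = (-1) ^ k * (((k : ℚ) + l + 1) * (M k l : ℚ)) := by ring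
  rw [e4, h]
  rw [div_mul_eq_mul_div, div_eq_iff (by positivity)]
  have e5 : ((l : ℚ) + 1) * ((-1) ^ k * ((l + 1).choose k : ℚ) * cb k * cb (l + 1) ^ 2)
    = (-1) ^ k * ((l + 1).choose k : ℚ) * cb k * cb (l + 1) * (((l : ℚ) + 1) * cb (l + 1)) := by ring
  rw [e5, h1]
  ring

/-- the sum `4 a_m` -/
theorem T_eq_sum (n : ℕ) :
    T (n + 1) = ((n : ℚ) + 1) * ∑ k ∈ range (n + 1), (-1) ^ k * (M k (n - k) : ℚ) := by
  rw [T, sum_range_succ, Tt_zero (by omega : n + 1 < 2 * (n + 1)), add_zero, mul_sum]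
  apply sum_congr rfl
  intro k hk
  have hk' : k ≤ n := by have := mem_range.mp hk; omega
  obtain ⟨l, rfl⟩ := Nat.exists_eq_add_of_le hk'
  have e : k + l - k = l := by omega
  rw [e, Tt_eq_M]
  push_cast
  ring

lemma M_zero {k l : ℕ} (h : l + 1 < k) : M k l = 0 := by
  unfold M
  rw [Nat.choose_eq_zero_of_lt h]
  simp

lemma M_ne {k l : ℕ} (h : k ≤ l + 1) : M k l ≠ 0 := by
  unfold M
  have h1 := S_pos k (l + 1)
  have h2 : 0 < (k + l).choose k := Nat.choose_pos (by omega)
  have h3 : 0 < (l + 1).choose k := Nat.choose_pos h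
  have h4 := catalan_pos l
  positivity

/-- the 2-adic valuation of the summand -/
lemma v2_M {k l : ℕ} (h : k ≤ l + 1) :
    padicValNat 2 (M k l) + 1 = s (k + l + 1) + s k + s (l + 1 - k)
      + padicValNat 2 ((k + l).choose k) := by
  have h1 := S_pos k (l + 1)
  have h2 : 0 < (k + l).choose k := Nat.choose_pos (by omega)
  have h3 : 0 < (l + 1).choose k := Nat.choose_pos h
  have h4 := catalan_pos l
  unfold M
  rw [padicValNat.mul (by positivity) h4.ne', padicValNat.mul (by positivity) h3.ne',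
    padicValNat.mul h1.ne' h2.ne', v2_S]
  have h5 := v2_catalan l
  obtain ⟨j, hj⟩ := Nat.exists_eq_add_of_le h
  have h6 := v2_choose k j
  rw [← hj] at h6
  have h7 : l + 1 - k = j := by omega
  rw [h7]
  have h8 : k + (l + 1) = k + l + 1 := by ring
  rw [h8]
  omega

end Pool.Agent.Lib.MP_4af00a_nt
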