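import Mathlib
import Pool.Agent.Lib.MP_4af00a_nt.Parity

/-!
Integrality and parity of `a_m`.
-/

namespace Pool.Agent.Lib.MP_4af00a_nt

open Finset

lemma pow_add_pow_eq {i c b : ℕ} (h : 2 ^ i + 2 ^ c = 2 ^ b) : i = c ∧ b = i + 1 := by
  rcases lt_trichotomy i c with h1 | h1 | h1
  · exfalso
    obtain ⟨d, rfl⟩ := Nat.exists_eq_add_of_lt h1
    have e : 2 ^ b = 2 ^ i * (2 * 2 ^ d + 1) := by rw [← h]; ring
    have hd : (2 * 2 ^ d + 1) ∣ 2 ^ b := ⟨2 ^ i, by rw [e]; ring⟩
    obtain ⟨t, _, ht⟩ := (Nat.dvd_prime_pow Nat.prime_two).mp hd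
    rcases t with _ | t
    · have : 0 < 2 ^ d := by positivity
      omega
    · rw [pow_succ] at ht; omega
  · subst h1
    refine ⟨rfl, ?_⟩
    have : 2 ^ (i + 1) = 2 ^ b := by rw [← h]; ring
    exact (Nat.pow_right_injective (le_refl 2) this).symm
  · exfalso
    obtain ⟨d, rfl⟩ := Nat.exists_eq_add_of_lt h1
    have e : 2 ^ b = 2 ^ c * (2 * 2 ^ d + 1) := by rw [← h]; ring
    have hd : (2 * 2 ^ d + 1) ∣ 2 ^ b := ⟨2 ^ c, by rw [e]; ring⟩
    obtain ⟨t, _, ht⟩ := (Nat.dvd_prime_pow Nat.prime_two).mp hd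
    rcases t with _ | t
    · have : 0 < 2 ^ d := by positivity
      omega
    · rw [pow_succ] at ht; omega

lemma dvd_of_v2 {x k : ℕ} (hx : x ≠ 0) (h : k ≤ padicValNat 2 x) : 2 ^ k ∣ x :=
  (padicValNat_dvd_iff_le hx).mpr h

lemma exact_v2 {x k : ℕ} (hx : x ≠ 0) (h : padicValNat 2 x = k) : ∃ y, x = 2 ^ k * (2 * y + 1) := by
  have h1 : 2 ^ k ∣ x := dvd_of_v2 hx h.ge
  obtain ⟨z, hz⟩ := h1
  have h2 : ¬ 2 ^ (k + 1) ∣ x := by
    intro hd
    have := (padicValNat_dvd_iff_le hx).mp hd
    omega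
  rcases Nat.even_or_odd' z with ⟨y, hy | hy⟩
  · exfalso
    apply h2
    refine ⟨y, ?_⟩
    rw [hz, hy, pow_succ]; ring
  · exact ⟨y, by rw [hz, hy]⟩

lemma v2_choose_sub {m k : ℕ} (h : k ≤ m) :
    padicValNat 2 (m.choose k) + s m = s k + s (m - k) := by
  obtain ⟨l, rfl⟩ := Nat.exists_eq_add_of_le h
  have := v2_choose k l
  rwa [Nat.add_sub_cancel_left]

/-- `centralBinom (2^(b+1)) ≡ 6 mod 8` -/
lemma cb_two_pow (b : ℕ) : (Nat.centralBinom (2 ^ (b + 1)) : ZMod 8) = 6 := by
  have h1 := Nat.sum_range_choose_sq (2 ^ (b + 1))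
  rw [← Nat.centralBinom_eq_two_mul_choose] at h1
  rw [← h1]
  push_cast
  have hpos : 0 < 2 ^ b := by positivity
  have e2 : 2 ^ (b + 1) = 2 * 2 ^ b := by ring
  have hsub : ({0, 2 ^ b, 2 ^ (b + 1)} : Finset ℕ) ⊆ range (2 ^ (b + 1) + 1) := by
    intro x hx
    simp only [mem_insert, mem_singleton] at hx
    rw [mem_range]
    omega
  rw [← sum_subset hsub]
  · rw [sum_insert, sum_insert, sum_singleton]
    · have hm : 2 ^ b ≤ 2 ^ (b + 1) := by omega
      have hv := v2_choose_sub hm
      have e3 : 2 ^ (b + 1) - 2 ^ b = 2 ^ b := by omega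
      rw [e3, s_two_pow, s_two_pow] at hv
      have hv' : padicValNat 2 ((2 ^ (b + 1)).choose (2 ^ b)) = 1 := by omega
      obtain ⟨y, hy⟩ := exact_v2 (Nat.choose_pos hm).ne' hv'
      rw [hy]
      simp only [Nat.choose_zero_right, Nat.choose_self]
      push_cast
      generalize (y : ZMod 8) = z
      revert z
      decide
    · simp only [mem_singleton]; omega
    · simp only [mem_insert, mem_singleton]; omega
  · intro x hx hx2
    simp only [mem_insert, mem_singleton, not_or] at hx2
    have hx' := mem_range.mp hx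
    have hm : x ≤ 2 ^ (b + 1) := by omega
    have hv := v2_choose_sub hm
    rw [s_two_pow] at hv
    have h1 : 0 < s x := s_pos (by omega)
    have h2 : 0 < s (2 ^ (b + 1) - x) := s_pos (by omega)
    have h3 : 2 ≤ padicValNat 2 ((2 ^ (b + 1)).choose x) := by
      by_contra hcon
      have hs1 : s x = 1 := by omega
      have hs2 : s (2 ^ (b + 1) - x) = 1 := by omega
      obtain ⟨i, hi⟩ := s_eq_one hs1
      obtain ⟨c, hc⟩ := s_eq_one hs2
      have : 2 ^ i + 2 ^ c = 2 ^ (b + 1) := by omega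
      obtain ⟨_, h5⟩ := pow_add_pow_eq this
      have h6 : b = i := by omega
      rw [h6] at hx2
      omega
    obtain ⟨z, hz⟩ := dvd_of_v2 (Nat.choose_pos hm).ne' h3
    rw [hz]
    push_cast
    generalize (z : ZMod 8) = w
    revert w
    decide

/-- the integer `4 a_{n+1}` -/
def Z (n : ℕ) : ℤ := ∑ k ∈ range (n + 1), (-1) ^ k * (M k (n - k) : ℤ)

lemma eight_dvd_of {k l : ℕ} (h : k ≤ l + 1)
    (hs : 4 ≤ s (k + l + 1) + s k + s (l + 1 - k)) : (M k l : ZMod 8) = 0 := by
  have h1 := v2_M h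
  have h2 : 3 ≤ padicValNat 2 (M k l) := by omega
  have h3 := dvd_of_v2 (M_ne h) h2
  exact (ZMod.natCast_eq_zero_iff _ _).mpr h3

lemma Z_not_pow {n : ℕ} (hn : 1 ≤ n) (h : ¬ ∃ j, n + 1 = 2 ^ j) : (Z n : ZMod 8) = 0 := by
  unfold Z
  push_cast
  apply sum_eq_zero
  intro k hk
  have hk' : k ≤ n := by have := mem_range.mp hk; omega
  obtain ⟨l, rfl⟩ := Nat.exists_eq_add_of_le hk'
  have e : k + l - k = l := by omega
  rw [e]
  have hs : 2 ≤ s (k + l + 1) := by
    have h0 : 0 < s (k + l + 1) := s_pos (by omega)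
    by_contra hcon
    exact h (s_eq_one (by omega))
  rcases Nat.lt_or_ge (l + 1) k with h1 | h1
  · rw [M_zero h1]; simp
  · have : (M k l : ZMod 8) = 0 := by
      apply eight_dvd_of h1
      rcases Nat.eq_zero_or_pos k with h0 | h0
      · subst h0
        rw [Nat.sub_zero]
        rw [Nat.zero_add] at hs ⊢
        omega
      · rcases Nat.lt_or_ge k (l + 1) with h2 | h2
        · have a := s_pos h0
          have b : 0 < s (l + 1 - k) := s_pos (by omega)
          omega
        · have h3 : k = l + 1 := by omega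
          have h4 : k + l + 1 = 2 * k := by omega
          rw [h4, s_two_mul] at hs ⊢
          omega
    rw [this]; simp

lemma s_three_pow (i : ℕ) : s (3 * 2 ^ i) = 2 := by
  induction i with
  | zero => simp [s]
  | succ i ih =>
    rw [show 3 * 2 ^ (i + 1) = 2 * (3 * 2 ^ i) by ring, s_two_mul, ih]

lemma odd_choose (i : ℕ) : padicValNat 2 ((2 ^ i + (3 * 2 ^ i - 1)).choose (2 ^ i)) = 0 := by
  have hpos : 0 < 2 ^ i := by positivity
  have h1 := v2_choose (2 ^ i) (3 * 2 ^ i)
  rw [s_three_pow, s_two_pow, show 2 ^ i + 3 * 2 ^ i = 2 ^ (i + 2) by ring, s_two_pow] at h1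
  have h2 := ch_rel' (2 ^ i) (3 * 2 ^ i - 1)
  have e1 : 3 * 2 ^ i - 1 + 1 = 3 * 2 ^ i := by omega
  rw [e1] at h2
  have e2 : (((3 * 2 ^ i - 1 : ℕ)) : ℚ) = 3 * 2 ^ i - 1 := by
    push_cast [Nat.cast_sub (by omega : 1 ≤ 3 * 2 ^ i)]; ring
  rw [e2] at h2
  push_cast at h2
  have hp : (2 : ℚ) ^ i ≠ 0 := by positivity
  have h3 : (3 : ℚ) * ((2 ^ i + 3 * 2 ^ i).choose (2 ^ i) : ℚ)
      = 4 * ((2 ^ i + (3 * 2 ^ i - 1)).choose (2 ^ i) : ℚ) := by
    apply mul_left_cancel₀ hp
    linear_combination h2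
  have h4 : 3 * (2 ^ i + 3 * 2 ^ i).choose (2 ^ i)
      = 4 * (2 ^ i + (3 * 2 ^ i - 1)).choose (2 ^ i) := by
    exact_mod_cast h3
  have h5 := congrArg (padicValNat 2) h4
  have c1 : 0 < (2 ^ i + 3 * 2 ^ i).choose (2 ^ i) := Nat.choose_pos (by omega)
  have c2 : 0 < (2 ^ i + (3 * 2 ^ i - 1)).choose (2 ^ i) := Nat.choose_pos (by omega)
  rw [padicValNat.mul (by norm_num) c1.ne', padicValNat.mul (by norm_num) c2.ne'] at h5
  have e3 : padicValNat 2 3 = 0 := padicValNat.eq_zero_of_not_dvd (by norm_num)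
  have e4 : padicValNat 2 4 = 2 := by
    rw [show (4 : ℕ) = 2 ^ 2 by norm_num, padicValNat.prime_pow]
  rw [show 2 ^ i + 3 * 2 ^ i = 2 ^ (i + 2) by ring] at h5
  omega

lemma Z_two : (Z 1 : ZMod 8) = 4 := by
  have h1 : S 0 2 = 6 := by simp [S, sc, Nat.centralBinom, Nat.choose]
  have h2 : S 1 1 = 2 := by simp [S, sc, Nat.centralBinom, Nat.choose]
  have e1 : Z 1 = 4 := by
    simp [Z, sum_range_succ, M, h1, h2, catalan_one, catalan_zero]
  rw [e1]; rfl

lemma Z_pow (i : ℕ) : (Z (4 * 2 ^ i - 1) : ZMod 8) = 4 := by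
  have hpos : 0 < 2 ^ i := by positivity
  set j := 2 ^ i with hj
  unfold Z
  push_cast
  have hsub : ({0, j, 2 * j} : Finset ℕ) ⊆ range (4 * j - 1 + 1) := by
    intro x hx
    simp only [mem_insert, mem_singleton] at hx
    rw [mem_range]
    omega
  rw [← sum_subset hsub]
  · rw [sum_insert, sum_insert, sum_singleton]
    · -- three main terms
      have t0 : (M 0 (4 * j - 1 - 0) : ZMod 8) = 6 := by
        have hc := two_mul_catalan (4 * j - 1)
        have e1 : 4 * j - 1 + 1 = 4 * j := by omega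
        rw [e1] at hc
        have hM : M 0 (4 * j - 1 - 0) = Nat.centralBinom (4 * j) * catalan (4 * j - 1) := by
          unfold M
          rw [Nat.sub_zero, e1]
          have := S_mul 0 (4 * j)
          simp at this
          rw [this]
          simp
        have hv : padicValNat 2 (Nat.centralBinom (4 * j)) = 1 := by
          rw [v2_cb, hj, show 4 * 2 ^ i = 2 ^ (i + 2) by ring, s_two_pow]
        obtain ⟨y, hy⟩ := exact_v2 (Nat.centralBinom_pos _).ne' hv
        rw [hM]
        have e2 : (2 * (4 * j - 1) + 1) * catalan (4 * j - 1) = 2 * y + 1 := by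
          rw [hy] at hc
          have : 2 * ((2 * (4 * j - 1) + 1) * catalan (4 * j - 1)) = 2 * (2 * y + 1) := by
            rw [← mul_assoc, hc]; ring
          omega
        have e3 : (2 * (4 * j - 1) + 1) = 8 * j - 1 := by omega
        rw [e3] at e2
        rw [hy]
        have e4 : (((8 * j - 1 : ℕ)) : ZMod 8) = -1 := by
          push_cast [Nat.cast_sub (by omega : 1 ≤ 8 * j)]
          have : (8 : ZMod 8) = 0 := rfl
          rw [this]; ring
        have e5 := congrArg (Nat.cast : ℕ → ZMod 8) e2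
        push_cast [e4] at e5
        push_cast
        have e6 : (catalan (4 * j - 1) : ZMod 8) = -(2 * y + 1) := by
          rw [← e5]; ring
        rw [e6]
        generalize (y : ZMod 8) = w
        revert w
        decide
      have t1 : (M j (4 * j - 1 - j) : ZMod 8) = 4 := by
        have e1 : 4 * j - 1 - j = 3 * j - 1 := by omega
        rw [e1]
        have hle : j ≤ 3 * j - 1 + 1 := by omega
        have hv := v2_M hle
        have e2 : j + (3 * j - 1) + 1 = 2 ^ (i + 2) := by rw [pow_add]; omega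
        have e3 : 3 * j - 1 + 1 - j = 2 ^ (i + 1) := by rw [pow_add]; omega
        rw [e2, e3, s_two_pow, s_two_pow, hj, s_two_pow, odd_choose, ← hj] at hv
        have hv' : padicValNat 2 (M j (3 * j - 1)) = 2 := by omega
        obtain ⟨y, hy⟩ := exact_v2 (M_ne hle) hv'
        rw [hy]
        push_cast
        generalize (y : ZMod 8) = w
        revert w
        decide
      have t2 : (M (2 * j) (4 * j - 1 - 2 * j) : ZMod 8) = 2 := by
        have e1 : 4 * j - 1 - 2 * j = 2 * j - 1 := by omega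
        rw [e1]
        have e2 : 2 * j - 1 + 1 = 2 * j := by omega
        have hcb := cb_two_pow i
        rw [show 2 ^ (i + 1) = 2 * j by rw [hj]; ring] at hcb
        have hS : S (2 * j) (2 * j) = Nat.centralBinom (2 * j) := by
          have h := S_mul (2 * j) (2 * j)
          have h2 : (2 * j + 2 * j).choose (2 * j) = Nat.centralBinom (2 * j) := by
            rw [Nat.centralBinom_eq_two_mul_choose]; congr 1; ring
          rw [h2] at h
          exact Nat.eq_of_mul_eq_mul_right (Nat.centralBinom_pos _) h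
        have hch : 2 * (2 * j + (2 * j - 1)).choose (2 * j) = Nat.centralBinom (2 * j) := by
          have h := ch_rel' (2 * j) (2 * j - 1)
          rw [e2] at h
          have e5 : (((2 * j - 1 : ℕ)) : ℚ) = 2 * j - 1 := by
            push_cast [Nat.cast_sub (by omega : 1 ≤ 2 * j)]; ring
          rw [e5] at h
          push_cast at h
          have hp : (2 * (j : ℚ)) ≠ 0 := by positivity
          have h3 : ((2 * j + 2 * j).choose (2 * j) : ℚ)
              = 2 * ((2 * j + (2 * j - 1)).choose (2 * j) : ℚ) := by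
            apply mul_left_cancel₀ hp
            linear_combination h
          have h4 : (2 * j + 2 * j).choose (2 * j) = 2 * (2 * j + (2 * j - 1)).choose (2 * j) := by
            exact_mod_cast h3
          rw [← h4, Nat.centralBinom_eq_two_mul_choose]; congr 1; ring
        have hcat := two_mul_catalan (2 * j - 1)
        rw [e2] at hcat
        obtain ⟨y, hy⟩ : ∃ y, Nat.centralBinom (2 * j) = 8 * y + 6 := by
          have h8 : ((Nat.centralBinom (2 * j) : ℕ) : ZMod 8) = ((6 : ℕ) : ZMod 8) := by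
            rw [hcb]; rfl
          have := (ZMod.natCast_eq_natCast_iff' _ _ _).mp h8
          refine ⟨Nat.centralBinom (2 * j) / 8, ?_⟩
          omega
        have hM : M (2 * j) (2 * j - 1) = Nat.centralBinom (2 * j) *
            (2 * j + (2 * j - 1)).choose (2 * j) * catalan (2 * j - 1) := by
          unfold M
          rw [e2, hS, Nat.choose_self, mul_one]
        have hch' : (2 * j + (2 * j - 1)).choose (2 * j) = 4 * y + 3 := by omega
        have hcat' : (4 * j - 1) * catalan (2 * j - 1) = 4 * y + 3 := by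
          rw [hy] at hcat
          have e6 : 2 * (2 * j - 1) + 1 = 4 * j - 1 := by omega
          rw [e6] at hcat
          have : 2 * ((4 * j - 1) * catalan (2 * j - 1)) = 2 * (4 * y + 3) := by
            rw [← mul_assoc, hcat]; ring
          omega
        obtain ⟨q, hq⟩ : ∃ q, 4 * j = q + 1 := ⟨4 * j - 1, by omega⟩
        have hq' : 4 * j - 1 = q := by omega
        rw [hq'] at hcat'
        have hqz : (q : ZMod 8) = 4 * j - 1 := by
          have := congrArg (Nat.cast : ℕ → ZMod 8) hq
          push_cast at this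
          rw [this]; ring
        have hcz := congrArg (Nat.cast : ℕ → ZMod 8) hcat'
        push_cast at hcz
        rw [hqz] at hcz
        rw [hM, hy, hch']
        push_cast
        revert hcz
        generalize (catalan (2 * j - 1) : ZMod 8) = c
        generalize (y : ZMod 8) = w
        generalize (j : ZMod 8) = v
        revert c w v
        decide
      rw [t0, t1, t2]
      have h2 : ((-1 : ZMod 8)) ^ (2 * j) = 1 := by
        rw [pow_mul]; norm_num
      rw [h2]
      rcases neg_one_pow_eq_or (ZMod 8) j with h | h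
      · rw [h]; decide
      · rw [h]; decide
    · simp only [mem_singleton]; omega
    · simp only [mem_insert, mem_singleton]; omega
  · intro k hk hk2
    simp only [mem_insert, mem_singleton, not_or] at hk2
    have hk' := mem_range.mp hk
    obtain ⟨l, hl⟩ : ∃ l, 4 * j - 1 - k = l := ⟨_, rfl⟩
    rw [hl]
    rcases Nat.lt_or_ge (l + 1) k with h1 | h1
    · rw [M_zero h1]; simp
    · have : (M k l : ZMod 8) = 0 := by
        apply eight_dvd_of h1
        have e1 : k + l + 1 = 2 ^ (i + 2) := by rw [pow_add]; omega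
        rw [e1, s_two_pow]
        have a : 0 < s k := s_pos (by omega)
        have b : 0 < s (l + 1 - k) := s_pos (by omega)
        by_contra hcon
        have hs1 : s k = 1 := by omega
        have hs2 : s (l + 1 - k) = 1 := by omega
        obtain ⟨u, hu⟩ := s_eq_one hs1
        obtain ⟨c, hc⟩ := s_eq_one hs2
        have h4 : 2 ^ (u + 1) + 2 ^ c = 2 ^ (i + 2) := by
          rw [pow_succ, ← hu, ← hc, ← e1]; omega
        obtain ⟨_, h5⟩ := pow_add_pow_eq h4
        have h6 : i = u := by omega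
        rw [← h6] at hu
        omega
      rw [this]; simp

theorem Z_mod {n : ℕ} (hn : 1 ≤ n) :
    ((∃ j, n + 1 = 2 ^ j) → (Z n : ZMod 8) = 4) ∧ ((¬ ∃ j, n + 1 = 2 ^ j) → (Z n : ZMod 8) = 0) := by
  refine ⟨?_, Z_not_pow hn⟩
  rintro ⟨j, hj⟩
  rcases j with _ | _ | j
  · omega
  · have : n = 1 := by omega
    rw [this]; exact Z_two
  · have : n = 4 * 2 ^ j - 1 := by rw [pow_add] at hj; omega
    rw [this]; exact Z_pow j

lemma A_eq_Z (n : ℕ) : 2 * A (n + 1) = ((n : ℚ) + 1) ^ 3 * n * (Z n : ℚ) := by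
  rw [A_eq_T, T_eq_sum]
  unfold Z
  push_cast
  ring

end Pool.Agent.Lib.MP_4af00a_nt
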